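import Mathlib
import Pool.Agent.Lib.MP_d57abb_nt.All.Defs

/-!
# Definitions
-/

namespace Pool.Agent.Lib.MP_d57abb_nt.AP

open Finset Pool.Agent.Lib.MP_d57abb_nt Pool.Agent.Lib.MP_d57abb_nt.All

/-- the Ramsey property with a given bound -/
def PropX {m : ℕ} (h : ℕ → ZMod m) (c : ZMod m) (X : ℕ) : Prop :=
  ∀ b : ℕ → ZMod m, ∃ t d : ℕ, Spl d ∧ d ∣ t ∧ t + d ≤ X ∧ b t + b (t + d) = c + 2 * h d

/-- divisors of `δ₀` of all split norms `d ≤ X` -/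
def Sys (X : ℕ) (δ₀ : ℤ × ℤ) (dl co : ℕ → ℤ × ℤ) : Prop :=
  ∀ d : ℕ, Spl d → d ≤ X → TP (dl d) ∧ nm (dl d) = d ∧ TP (co d) ∧ ml (dl d) (co d) = δ₀

/-- the `t`-th vector of the line attached to `a, b, c` with `a ∣ 1 + b c` -/
def zt (a b c t : ℕ) : ℤ × ℤ := ((a : ℤ) + t * c, (b : ℤ) + t * (((1 + b * c) / a : ℕ) : ℤ))

/-- the pairs `(b, c)` -/
def Fam (a G B : ℕ) : Finset (ℕ × ℕ) :=
  (range a ×ˢ range a).filter (fun x => a ∣ 1 + x.1 * x.2 ∧ x.1 ≡ B [MOD G] ∧ x.2 ≡ 0 [MOD G])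

/-- the bad residues modulo `q` -/
def badq (a X q : ℕ) : Finset (ℕ × ℕ) :=
  (range q ×ˢ range q).filter (fun s => ∃ t ∈ range (X + 1),
    (q : ℤ) ∣ nm ((a : ℤ) ^ 2 + t * a * s.2, (a : ℤ) * s.1 + t * (1 + s.1 * s.2)))

/-- the primes up to `z` -/
def Pz (z : ℕ) : Finset ℕ := (Icc 1 z).filter Nat.Prime

open Classical in
/-- the sifted family -/
noncomputable def Sift (a G B X w z : ℕ) : Finset (ℕ × ℕ) :=
  (Fam a G B).filter (fun x => ∀ q ∈ Pz z, w < q → ∀ t ∈ range (X + 1),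
    ¬ (q : ℤ) ∣ nm (zt a x.1 x.2 t))

/-- the sifted family for all primes `a ≡ 1 (mod G)` in `(A / 2, A]` -/
noncomputable def SS (A G B X w z : ℕ) : Finset (Σ _ : ℕ, ℕ × ℕ) :=
  ((Ioc (A / 2) A).filter (fun a => a.Prime ∧ a ≡ 1 [MOD G])).sigma (fun a => Sift a G B X w z)

/-- the values `k` counted in the theorem -/
noncomputable def FC {m : ℕ} (h : ℕ → ZMod m) (c : ZMod m) (C N : ℕ) : Finset ℕ :=
  (Icc 1 N).filter (fun k => h (k ^ 2 + 3 * k + 1) = c ∧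
    ArithmeticFunction.cardFactors (k ^ 2 + 3 * k + 1) ≤ C)

/-- the parameters: `X` for the Ramsey property, the system of divisors, the base vector
`(1, B) = δ₀ u₀`, the exponent `E` and the modulus `(w!)^E` -/
structure Par {m : ℕ} (h : ℕ → ZMod m) (X : ℕ) (δ₀ u₀ : ℤ × ℤ) (dl co : ℕ → ℤ × ℤ) (B w E : ℕ) : Prop where
  add : Add h
  prop : ∀ c, PropX h (2 * c) X
  tp : TP δ₀
  sys : Sys X δ₀ dl co
  base : ml δ₀ u₀ = (1, (B : ℤ))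
  hw : 8 * (X + 1) ≤ w
  hM : nm δ₀ ∣ ((w.factorial : ℕ) : ℤ)
  E1 : 1 ≤ E
  hE : nm (1, ((B + X : ℕ) : ℤ)) < 2 ^ E

end Pool.Agent.Lib.MP_d57abb_nt.AP
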