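import Mathlib
import Pool.Agent.Lib.MP_d57abb_nt.AP.Defs
import Pool.Agent.Lib.MP_d57abb_nt.All.Sys

/-!
# JOB Base: the base frame

PROOF of `base_of_prim`.  Let `x δ.1 + y δ.2 = 1`, `u_j = (x + j δ.2, - y + j δ.1)`.  The first coordinate of `ml δ u_j` is `δ.1 (x + j δ.2) - δ.2 (- y + j δ.1) = 1`; the second is `B₀ + j nm δ` with a constant `B₀` (`δ.1 (-y + j δ.1) + (x + j δ.2) δ.2 + 3 δ.2 (-y + j δ.1)`),
which is `≥ 0` for large `j` as `nm δ > 0`.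
PROOF of `div_of_mod`.  `z = (1, B) + G w` for some `w`; with the conjugate `δ' = (δ.1 + 3 δ.2, - δ.2)`, `ml δ δ' = (nm δ, 0)`, `G = nm δ * g`: `G w = ml δ (ml δ' (g w))`; `u' = u + ml δ' (g • w)`.
PROOF of `exists_propX`: `X c` from `PropB h (2 * c)` for every `c`, `X = ∑ c, X c` (`ZMod m` is finite); `PropX` is monotone in `X`.
PROOF of `exists_sys'`: `exists_sys X`; `IsCoprime δ₀.1 δ₀.2` from its last property for `u = (1, 0)` (`nm (1, 0) = 1`, `ml δ₀ (1, 0) = δ₀`).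
-/

open Finset

namespace Pool.Agent.Lib.MP_d57abb_nt.AP

open Pool.Agent.Lib.MP_d57abb_nt Pool.Agent.Lib.MP_d57abb_nt.All

theorem base_of_prim (δ : ℤ × ℤ) (ht : TP δ) (hc : IsCoprime δ.1 δ.2) :
    ∃ (B : ℕ) (u : ℤ × ℤ), ml δ u = (1, (B : ℤ)) := by
  obtain ⟨x, y, hxy⟩ := hc
  have hn : 0 < nm δ := by
    have h1 := mul_pos ht.1 ht.2
    rw [pp_mul_qq] at h1
    exact_mod_cast h1
  set b0 : ℤ := -(δ.1 * y) + x * δ.2 - 3 * δ.2 * y with hb0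
  set j : ℤ := |b0| with hj
  have hj0 : 0 ≤ j := abs_nonneg _
  have h2 : 0 ≤ b0 + j * nm δ := by
    have h3 : -b0 ≤ j := neg_le_abs b0
    have h4 : j * 1 ≤ j * nm δ := mul_le_mul_of_nonneg_left (by omega) hj0
    linarith
  refine ⟨(b0 + j * nm δ).toNat, (x + j * δ.2, -y + j * δ.1), ?_⟩
  rw [Int.toNat_of_nonneg h2]
  unfold ml
  refine Prod.ext ?_ ?_
  · show δ.1 * (x + j * δ.2) - δ.2 * (-y + j * δ.1) = 1
    linear_combination hxy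
  · show δ.1 * (-y + j * δ.1) + (x + j * δ.2) * δ.2 + 3 * δ.2 * (-y + j * δ.1) = b0 + j * nm δ
    rw [hb0]
    unfold nm
    ring

theorem div_of_mod (δ : ℤ × ℤ) (B : ℕ) (u : ℤ × ℤ) (hu : ml δ u = (1, (B : ℤ))) (G : ℕ)
    (hG : nm δ ∣ (G : ℤ)) (z : ℤ × ℤ) (h1 : (G : ℤ) ∣ z.1 - 1) (h2 : (G : ℤ) ∣ z.2 - B) :
    ∃ u' : ℤ × ℤ, ml δ u' = z := by
  obtain ⟨g, hg⟩ := hG
  obtain ⟨w1, hw1⟩ := h1
  obtain ⟨w2, hw2⟩ := h2
  have e1 : δ.1 * u.1 - δ.2 * u.2 = 1 := congrArg Prod.fst hu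
  have e2 : δ.1 * u.2 + u.1 * δ.2 + 3 * δ.2 * u.2 = (B : ℤ) := congrArg Prod.snd hu
  unfold nm at hg
  refine ⟨(u.1 + ((δ.1 + 3 * δ.2) * (g * w1) + δ.2 * (g * w2)),
    u.2 + (δ.1 * (g * w2) - δ.2 * (g * w1))), ?_⟩
  unfold ml
  refine Prod.ext ?_ ?_
  · show δ.1 * (u.1 + ((δ.1 + 3 * δ.2) * (g * w1) + δ.2 * (g * w2))) -
      δ.2 * (u.2 + (δ.1 * (g * w2) - δ.2 * (g * w1))) = z.1
    linear_combination e1 - hw1 - w1 * hg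
  · show δ.1 * (u.2 + (δ.1 * (g * w2) - δ.2 * (g * w1))) +
      (u.1 + ((δ.1 + 3 * δ.2) * (g * w1) + δ.2 * (g * w2))) * δ.2 +
      3 * δ.2 * (u.2 + (δ.1 * (g * w2) - δ.2 * (g * w1))) = z.2
    linear_combination e2 - hw2 - w2 * hg

theorem exists_propX {m : ℕ} [NeZero m] {h : ℕ → ZMod m} (hB : ∀ c, PropB h (2 * c)) :
    ∃ X : ℕ, ∀ c, PropX h (2 * c) X := by
  choose X hX using hB
  refine ⟨∑ c : ZMod m, X c, fun c b => ?_⟩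
  obtain ⟨t, d, h1, h2, h3, h4⟩ := hX c b
  refine ⟨t, d, h1, h2, h3.trans ?_, h4⟩
  exact Finset.single_le_sum (f := X) (fun _ _ => Nat.zero_le _) (Finset.mem_univ c)

theorem exists_sys' (X : ℕ) : ∃ (δ₀ : ℤ × ℤ) (dl co : ℕ → ℤ × ℤ), TP δ₀ ∧ IsCoprime δ₀.1 δ₀.2 ∧
    Sys X δ₀ dl co := by
  obtain ⟨M, δ₀, dl, co, -, h2, h3, h4⟩ := exists_sys X
  refine ⟨δ₀, dl, co, h2, ?_, h3⟩
  have h5 := h4 (1, 0) isCoprime_one_left (by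
    have e : nm (1, 0) = 1 := by
      unfold nm
      norm_num
    rw [e]
    exact isCoprime_one_left)
  have e1 : ml δ₀ (1, 0) = δ₀ := by
    unfold ml
    refine Prod.ext ?_ ?_
    · show δ₀.1 * 1 - δ₀.2 * 0 = δ₀.1
      ring
    · show δ₀.1 * 0 + 1 * δ₀.2 + 3 * δ₀.2 * 0 = δ₀.2
      ring
  rw [e1] at h5
  exact h5

end Pool.Agent.Lib.MP_d57abb_nt.AP
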