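import Mathlib

/-!
# JOB Geo: the Fourier transform of a progression modulo `p`

PROOF of `prog_card`: the number of `b < p` with `b ≡ β (mod D)` is `⌊(p - 1 - r) / D⌋ + 1` or `0`, `r = β % D` (`Nat.count_modEq_card` is in Mathlib; or compare with `p / D` directly).
PROOF of `prog_l1`.  The elements of `Bp p D β` are `r + D x`, `0 ≤ x < X₁`, `r = β % D`, `X₁ ≤ p` (`X₁ = (Bp p D β).card`).  `|∑_b ψ(-u b)| = |∑_{x < X₁} ψ(-u D)^x|`, and `u ↦ u D` is a bijection of `ZMod p` (`D` is invertible mod `p`), so the sum is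
`∑_{u} |∑_{x<X₁} ψ(-u)^x| ≤ X₁ + ∑_{u ≠ 0} 2 / |1 - ψ(u)|` (geometric sum, `ψ(u) ≠ 1` for `u ≠ 0`).  For `1 ≤ j < p`: `|1 - ψ(j)| = 2 sin (π j / p) ≥ 4 min (j, p - j) / p` (`ZMod.stdAddChar_apply`/`ZMod.toCircle_natCast`:
`ψ(j) = exp (2 π i j / p)`), so `∑_{u≠0} ≤ ∑_{j=1}^{p-1} p / (2 min (j, p - j)) ≤ p ∑_{j ≤ p/2} 1/j ≤ p (1 + log p)`.  Total `≤ p + p (1 + log p)`.
-/

open Finset

namespace Pool.Agent.Lib.MP_d57abb_nt.AP

/-- the progression -/
def Bp (p D β : ℕ) : Finset ℕ := (range p).filter (fun b => b ≡ β [MOD D])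

/-- the number of elements of the progression -/
private def Geo_X (p D β : ℕ) : ℕ := (p + D - 1 - β % D) / D

private theorem Geo_eq (p D β : ℕ) (hD : 0 < D) :
    Bp p D β = (range (Geo_X p D β)).image (fun x => β % D + D * x) := by
  have hr : β % D < D := Nat.mod_lt _ hD
  ext b
  unfold Bp Geo_X
  rw [mem_filter, mem_range, mem_image]
  constructor
  · rintro ⟨hb, hm⟩
    have h1 : b % D = β % D := hm
    have h2 := Nat.div_add_mod b D
    rw [h1] at h2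
    refine ⟨b / D, ?_, by omega⟩
    rw [mem_range, Nat.lt_iff_add_one_le, Nat.le_div_iff_mul_le hD, add_mul, one_mul, mul_comm]
    omega
  · rintro ⟨x, hx, rfl⟩
    rw [mem_range, Nat.lt_iff_add_one_le, Nat.le_div_iff_mul_le hD, add_mul, one_mul, mul_comm] at hx
    refine ⟨by omega, ?_⟩
    change (β % D + D * x) % D = β % D
    rw [Nat.add_mul_mod_self_left, Nat.mod_mod]

private theorem Geo_inj (D β : ℕ) (hD : 0 < D) : Function.Injective (fun x => β % D + D * x) := by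
  intro x y h
  have h1 : β % D + D * x = β % D + D * y := h
  exact Nat.eq_of_mul_eq_mul_left hD (by omega)

private theorem Geo_card (p D β : ℕ) (hD : 0 < D) : (Bp p D β).card = Geo_X p D β := by
  rw [Geo_eq p D β hD, card_image_of_injective _ (Geo_inj D β hD), card_range]

theorem prog_card (p D β : ℕ) (hD : 0 < D) : |((Bp p D β).card : ℝ) - (p : ℝ) / D| ≤ 1 := by
  rw [Geo_card p D β hD]
  have hr : β % D < D := Nat.mod_lt _ hD
  have h1 := Nat.div_add_mod (p + D - 1 - β % D) D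
  have h2 := Nat.mod_lt (p + D - 1 - β % D) hD
  have h3 : D * Geo_X p D β ≤ p + D := by
    unfold Geo_X
    omega
  have h4 : p ≤ D * Geo_X p D β + D := by
    unfold Geo_X
    omega
  have h3' : (D : ℝ) * Geo_X p D β ≤ p + D := by exact_mod_cast h3
  have h4' : (p : ℝ) ≤ D * Geo_X p D β + D := by exact_mod_cast h4
  have hD' : (0 : ℝ) < D := by exact_mod_cast hD
  rw [abs_le]
  constructor
  · have : (p : ℝ) / D ≤ Geo_X p D β + 1 := by
      rw [div_le_iff₀ hD']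
      linarith
    linarith
  · have : (Geo_X p D β : ℝ) - 1 ≤ (p : ℝ) / D := by
      rw [le_div_iff₀ hD']
      linarith
    linarith

private theorem Geo_norm (p : ℕ) [Fact p.Prime] (v : ZMod p) :
    ‖(ZMod.stdAddChar v : ℂ)‖ = 1 := by
  rw [ZMod.stdAddChar_apply, Circle.norm_coe]

/-- the sum over the progression is a geometric sum -/
private theorem Geo_sum (p D β : ℕ) [Fact p.Prime] (hD : 0 < D) (u : ZMod p) :
    ‖∑ b ∈ Bp p D β, (ZMod.stdAddChar (-(u * (b : ZMod p))) : ℂ)‖ =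
      ‖∑ x ∈ range (Geo_X p D β), (ZMod.stdAddChar (-(u * (D : ZMod p))) : ℂ) ^ x‖ := by
  rw [Geo_eq p D β hD, sum_image (fun x _ y _ h => Geo_inj D β hD h)]
  have e : ∀ x : ℕ, (ZMod.stdAddChar (-(u * ((β % D + D * x : ℕ) : ZMod p))) : ℂ) =
      ZMod.stdAddChar (-(u * ((β % D : ℕ) : ZMod p))) *
        (ZMod.stdAddChar (-(u * (D : ZMod p))) : ℂ) ^ x := by
    intro x
    rw [← AddChar.map_nsmul_eq_pow, ← AddChar.map_add_eq_mul]
    congr 1
    rw [nsmul_eq_mul]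
    push_cast
    ring
  rw [sum_congr rfl (fun x _ => e x), ← mul_sum, norm_mul, Geo_norm, one_mul]

/-- lower bound for the distance of a root of unity to `1` -/
private theorem Geo_sin (p : ℕ) (hp : 0 < p) (j : ℕ) (h1 : 1 ≤ j) (h2 : j < p) :
    1 / Real.sin (Real.pi * j / p) ≤ (p : ℝ) / 2 * (1 / j + 1 / ((p - j : ℕ) : ℝ)) ∧
      0 < Real.sin (Real.pi * j / p) := by
  have hp' : (0 : ℝ) < p := by exact_mod_cast hp
  have hj : (0 : ℝ) < j := by exact_mod_cast h1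
  have hk : (0 : ℝ) < ((p - j : ℕ) : ℝ) := by exact_mod_cast Nat.sub_pos_of_lt h2
  have hjk : ((p - j : ℕ) : ℝ) = p - j := by rw [Nat.cast_sub h2.le]
  have hpi := Real.pi_pos
  rcases le_total (j : ℝ) (p / 2) with h | h
  · have hx : Real.pi * j / p ≤ Real.pi / 2 := by
      rw [div_le_div_iff₀ hp' (by norm_num)]
      nlinarith
    have h3 := Real.mul_le_sin (by positivity) hx
    have h4 : 2 / Real.pi * (Real.pi * j / p) = 2 * j / p := by
      field_simp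
    rw [h4] at h3
    have h5 : (0 : ℝ) < 2 * j / p := by positivity
    refine ⟨?_, h5.trans_le h3⟩
    calc 1 / Real.sin (Real.pi * j / p) ≤ 1 / (2 * j / p) := one_div_le_one_div_of_le h5 h3
      _ = (p : ℝ) / 2 * (1 / j) := by field_simp
      _ ≤ (p : ℝ) / 2 * (1 / j + 1 / ((p - j : ℕ) : ℝ)) := by
        have : 0 ≤ 1 / ((p - j : ℕ) : ℝ) := by positivity
        gcongr
        linarith
  · have hx : Real.pi * ((p - j : ℕ) : ℝ) / p ≤ Real.pi / 2 := by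
      rw [hjk, div_le_div_iff₀ hp' (by norm_num)]
      nlinarith
    have h3 := Real.mul_le_sin (by positivity) hx
    have h4 : 2 / Real.pi * (Real.pi * ((p - j : ℕ) : ℝ) / p) = 2 * ((p - j : ℕ) : ℝ) / p := by
      field_simp
    have h6 : Real.sin (Real.pi * ((p - j : ℕ) : ℝ) / p) = Real.sin (Real.pi * j / p) := by
      rw [← Real.sin_pi_sub (Real.pi * j / p), hjk]
      congr 1
      field_simp
    rw [h4, h6] at h3
    have h5 : (0 : ℝ) < 2 * ((p - j : ℕ) : ℝ) / p := by positivity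
    refine ⟨?_, h5.trans_le h3⟩
    calc 1 / Real.sin (Real.pi * j / p) ≤ 1 / (2 * ((p - j : ℕ) : ℝ) / p) :=
          one_div_le_one_div_of_le h5 h3
      _ = (p : ℝ) / 2 * (1 / ((p - j : ℕ) : ℝ)) := by field_simp
      _ ≤ (p : ℝ) / 2 * (1 / j + 1 / ((p - j : ℕ) : ℝ)) := by
        have : 0 ≤ 1 / (j : ℝ) := by positivity
        gcongr
        linarith

private theorem Geo_term (p X : ℕ) [hpp : Fact p.Prime] (j : ℕ) (h1 : 1 ≤ j) (h2 : j < p) :
    ‖∑ x ∈ range X, (ZMod.stdAddChar ((j : ℕ) : ZMod p) : ℂ) ^ x‖ ≤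
      (p : ℝ) / 2 * (1 / j + 1 / ((p - j : ℕ) : ℝ)) := by
  have hp := hpp.out.pos
  obtain ⟨h3, h4⟩ := Geo_sin p hp j h1 h2
  set z : ℂ := ZMod.stdAddChar ((j : ℕ) : ZMod p) with hz
  have hz1 : ‖z‖ = 1 := Geo_norm p _
  have hzs : ‖z - 1‖ = 2 * Real.sin (Real.pi * j / p) := by
    have e1 : z = Complex.exp (Complex.I * ((2 * Real.pi * j / p : ℝ) : ℂ)) := by
      rw [hz, ZMod.stdAddChar_apply, ZMod.toCircle_natCast]
      congr 1
      push_cast
      ring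
    rw [e1, Complex.norm_exp_I_mul_ofReal_sub_one]
    have e2 : 2 * Real.pi * j / p / 2 = Real.pi * j / p := by ring
    rw [e2, Real.norm_eq_abs, abs_of_pos (by positivity)]
  have hne : z ≠ 1 := by
    intro e
    rw [e, sub_self, norm_zero] at hzs
    linarith
  rw [geom_sum_eq hne, norm_div, hzs]
  have h5 : ‖z ^ X - 1‖ ≤ 2 := by
    calc ‖z ^ X - 1‖ ≤ ‖z ^ X‖ + ‖(1 : ℂ)‖ := norm_sub_le _ _
      _ = 2 := by rw [norm_pow, hz1, one_pow, norm_one]; norm_num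
  calc ‖z ^ X - 1‖ / (2 * Real.sin (Real.pi * j / p)) ≤ 2 / (2 * Real.sin (Real.pi * j / p)) := by
        gcongr
    _ = 1 / Real.sin (Real.pi * j / p) := by
      field_simp
    _ ≤ _ := h3

private theorem Geo_harm (p : ℕ) (hp : 2 ≤ p) :
    ∑ j ∈ Ico 1 p, (1 / (j : ℝ)) ≤ 1 + Real.log p := by
  have h1 := harmonic_le_one_add_log (p - 1)
  have h2 : ((harmonic (p - 1) : ℚ) : ℝ) = ∑ j ∈ Ico 1 p, (1 / (j : ℝ)) := by
    rw [sum_Ico_eq_sum_range, harmonic]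
    push_cast
    refine sum_congr rfl fun i _ => ?_
    rw [one_div, add_comm]
  rw [h2] at h1
  have h3 : Real.log ((p - 1 : ℕ) : ℝ) ≤ Real.log p := by
    refine Real.log_le_log ?_ ?_
    · have : 0 < p - 1 := by omega
      exact_mod_cast this
    · exact_mod_cast Nat.sub_le p 1
  linarith

theorem prog_l1 (p D β : ℕ) [Fact p.Prime] (hD : 0 < D) (hc : Nat.Coprime D p) :
    ∑ u : ZMod p, ‖∑ b ∈ Bp p D β, (ZMod.stdAddChar (-(u * (b : ZMod p))) : ℂ)‖ ≤ p * (3 + Real.log p) := by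
  have hpp : p.Prime := Fact.out
  have hp2 := hpp.two_le
  have hp0 : (0 : ℝ) < p := by exact_mod_cast hpp.pos
  set X := Geo_X p D β with hX
  have hXp : (X : ℝ) ≤ p := by
    have h1 : (Bp p D β).card ≤ p := by
      unfold Bp
      exact (card_filter_le _ _).trans (card_range p).le
    rw [Geo_card p D β hD] at h1
    exact_mod_cast h1
  have hDne : ((D : ℕ) : ZMod p) ≠ 0 := by
    rw [Ne, ZMod.natCast_eq_zero_iff]
    intro h
    have h1 : p ∣ Nat.gcd D p := Nat.dvd_gcd h dvd_rfl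
    rw [hc.gcd_eq_one] at h1
    exact hpp.one_lt.ne' (Nat.dvd_one.1 h1)
  have hbij : Function.Bijective (fun u : ZMod p => -(u * (D : ZMod p))) := by
    rw [← Finite.injective_iff_bijective]
    intro a b h
    exact mul_right_cancel₀ hDne (neg_injective h)
  have e1 : ∑ u : ZMod p, ‖∑ b ∈ Bp p D β, (ZMod.stdAddChar (-(u * (b : ZMod p))) : ℂ)‖ =
      ∑ v : ZMod p, ‖∑ x ∈ range X, (ZMod.stdAddChar v : ℂ) ^ x‖ := by
    rw [sum_congr rfl (fun u _ => Geo_sum p D β hD u)]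
    exact hbij.sum_comp (fun v : ZMod p => ‖∑ x ∈ range X, (ZMod.stdAddChar v : ℂ) ^ x‖)
  have e2 : ∑ v : ZMod p, ‖∑ x ∈ range X, (ZMod.stdAddChar v : ℂ) ^ x‖ =
      ∑ j ∈ range p, ‖∑ x ∈ range X, (ZMod.stdAddChar ((j : ℕ) : ZMod p) : ℂ) ^ x‖ := by
    refine sum_nbij' (fun v => v.val) (fun j => (j : ZMod p)) ?_ ?_ ?_ ?_ ?_
    · intro v _
      exact mem_range.2 (ZMod.val_lt v)
    · intro j _
      exact mem_univ _
    · intro v _
      exact ZMod.natCast_zmod_val v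
    · intro j hj
      exact ZMod.val_natCast_of_lt (mem_range.1 hj)
    · intro v _
      rw [ZMod.natCast_zmod_val]
  have e3 : ‖∑ x ∈ range X, (ZMod.stdAddChar (((0 : ℕ) : ℕ) : ZMod p) : ℂ) ^ x‖ = X := by
    have h1 : (ZMod.stdAddChar (((0 : ℕ) : ℕ) : ZMod p) : ℂ) = 1 := by
      rw [Nat.cast_zero, AddChar.map_zero_eq_one]
    rw [h1]
    simp
  rw [e1, e2, sum_range_eq_add_Ico _ hpp.pos, e3]
  have h5 : ∑ j ∈ Ico 1 p, ‖∑ x ∈ range X, (ZMod.stdAddChar ((j : ℕ) : ZMod p) : ℂ) ^ x‖ ≤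
      ∑ j ∈ Ico 1 p, ((p : ℝ) / 2 * (1 / j + 1 / ((p - j : ℕ) : ℝ))) := by
    refine sum_le_sum fun j hj => ?_
    rw [mem_Ico] at hj
    exact Geo_term p X j hj.1 hj.2
  have h6 : ∑ j ∈ Ico 1 p, (1 / ((p - j : ℕ) : ℝ)) = ∑ j ∈ Ico 1 p, (1 / (j : ℝ)) := by
    have h7 := sum_Ico_reflect (fun j : ℕ => 1 / (j : ℝ)) 1 (m := p) (n := p) (Nat.le_succ p)
    rw [h7]
    congr 1
    rw [Nat.add_sub_cancel_left, Nat.add_sub_cancel]
  rw [← mul_sum, sum_add_distrib, h6] at h5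
  have h8 := Geo_harm p hp2
  have h9 : (p : ℝ) / 2 * (∑ j ∈ Ico 1 p, (1 / (j : ℝ)) + ∑ j ∈ Ico 1 p, (1 / (j : ℝ))) ≤
      p * (1 + Real.log p) := by
    have : (p : ℝ) / 2 * (∑ j ∈ Ico 1 p, (1 / (j : ℝ)) + ∑ j ∈ Ico 1 p, (1 / (j : ℝ))) =
      p * ∑ j ∈ Ico 1 p, (1 / (j : ℝ)) := by ring
    rw [this]
    exact mul_le_mul_of_nonneg_left h8 hp0.le
  calc (X : ℝ) + ∑ j ∈ Ico 1 p, ‖∑ x ∈ range X, (ZMod.stdAddChar ((j : ℕ) : ZMod p) : ℂ) ^ x‖ ≤
      p + p * (1 + Real.log p) := add_le_add hXp (h5.trans h9)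
    _ ≤ p * (3 + Real.log p) := by
      nlinarith

end Pool.Agent.Lib.MP_d57abb_nt.AP
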