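import Mathlib
import Pool.Agent.Lib.MP_2a816b_nt.BH.Weil

/-!
# JOB Kl: complete sums

PROOF.  If `v ≠ 0` this is `kloosterman_bound p v u` (`MP_2a816b_nt/BH/Weil`; reorder the two summands).  If `v = 0`, `u ≠ 0`: the sum over all `x` is `0` (`AddChar.sum_eq_zero_of_ne_one`, `ZMod.isPrimitive_stdAddChar`), so the sum over
`x ≠ 0` is `-1`, and `1 ≤ 2 √p`.
-/

open Finset

namespace Pool.Agent.Lib.MP_d57abb_nt.AP

theorem kl_pair (p : ℕ) [Fact p.Prime] (u v : ZMod p) (h : u ≠ 0 ∨ v ≠ 0) :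
    ‖∑ x ∈ (univ : Finset (ZMod p)).filter (fun x => x ≠ 0), (ZMod.stdAddChar (u * x + v * x⁻¹) : ℂ)‖ ≤
      2 * √p := by
  by_cases hv : v = 0
  · have hu : u ≠ 0 := by
      rcases h with h | h
      · exact h
      · exact absurd hv h
    have hp : 1 ≤ p := (Fact.out : p.Prime).one_lt.le
    have h1p : (1 : ℝ) ≤ √p := by
      rw [Real.one_le_sqrt]
      exact_mod_cast hp
    have hsum : ∑ x : ZMod p, (ZMod.stdAddChar (u * x + v * x⁻¹) : ℂ) = 0 := by
      have h2 := AddChar.sum_mulShift u (ZMod.isPrimitive_stdAddChar p)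
      rw [if_neg hu] at h2
      rw [← Nat.cast_zero, ← h2]
      refine Finset.sum_congr rfl fun x _ => ?_
      rw [hv, zero_mul, add_zero, mul_comm]
    have hsplit := Finset.sum_filter_add_sum_filter_not (univ : Finset (ZMod p)) (fun x => x ≠ 0)
      (fun x => (ZMod.stdAddChar (u * x + v * x⁻¹) : ℂ))
    have hz : (univ : Finset (ZMod p)).filter (fun x => ¬ x ≠ 0) = {0} := by
      ext x
      simp only [mem_filter, mem_univ, true_and, mem_singleton, not_not]
    rw [hz, Finset.sum_singleton, hsum, hv, zero_mul, add_zero, mul_zero, AddChar.map_zero_eq_one]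
      at hsplit
    have h3 : ∑ x ∈ (univ : Finset (ZMod p)).filter (fun x => x ≠ 0),
        (ZMod.stdAddChar (u * x + v * x⁻¹) : ℂ) = -1 := by
      rw [hv]
      exact eq_neg_of_add_eq_zero_left hsplit
    rw [h3, norm_neg, norm_one]
    linarith
  · have h2 := BHWeil.kloosterman_bound p v u hv
    have h3 : ∑ x ∈ (univ : Finset (ZMod p)).filter (fun x => x ≠ 0),
        (ZMod.stdAddChar (u * x + v * x⁻¹) : ℂ) =
        ∑ x ∈ (univ : Finset (ZMod p)).filter (fun x => x ≠ 0),
        (ZMod.stdAddChar (v * x⁻¹ + u * x) : ℂ) :=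
      Finset.sum_congr rfl fun x _ => by rw [add_comm]
    rw [h3]
    exact h2

end Pool.Agent.Lib.MP_d57abb_nt.AP
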