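import Mathlib
import Pool.Agent.Lib.MP_d57abb_nt.AP.Kl
import Pool.Agent.Lib.MP_d57abb_nt.AP.Geo

/-!
# JOB Cnt: points on the hyperbola `x y = -1` modulo `p` in progressions

PROOF.  `ψ = ZMod.stdAddChar`, `B = Bp p D β`, `C = Bp p D γ`, `B̂ u = ∑_{b ∈ B} ψ(-u b)`, `Ĉ v = ∑_{c ∈ C} ψ(-v c)`.  Fourier inversion: for `x : ZMod p`, `∑_u B̂ u ψ(u x) = p 1[x ∈ B]` (orthogonality `∑_u ψ(u y) = p 1[y = 0]`, `AddChar.sum_mulShift` /
`ZMod.stdAddChar` primitive; `B` has distinct residues).  The number of points is the number of `x ≠ 0` in `ZMod p` with `x ∈ B`, `- x⁻¹ ∈ C` (`p ∣ 1 + b c` iff `c = - b⁻¹` in `ZMod p`, `b ≠ 0`), so it is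
`(1/p²) ∑_{u, v} B̂ u Ĉ v ∑_{x ≠ 0} ψ(u x - v x⁻¹)`.  The term `u = v = 0` is `|B| |C| (p - 1) / p²`, the others are at most `(1/p²) 2 √p (∑_u |B̂ u|) (∑_v |Ĉ v|) ≤ 2 √p (3 + log p)²` (`kl_pair`, `prog_l1`).  With `|B| = p/D + θ₁`,
`|C| = p/D + θ₂`, `|θ_i| ≤ 1` (`prog_card`), `| |B||C|(p-1)/p² - p/D² | ≤ 1/D² + 2/D + 1/p ≤ 4 ≤ √p (3 + log p)²`.
-/

open Finset

namespace Pool.Agent.Lib.MP_d57abb_nt.AP

private theorem Cnt_inv (p D β : ℕ) [Fact p.Prime] (x : ZMod p) :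
    ∑ u : ZMod p, (∑ b ∈ Bp p D β, (ZMod.stdAddChar (-(u * (b : ZMod p))) : ℂ)) *
      (ZMod.stdAddChar (u * x) : ℂ) = if x.val ∈ Bp p D β then (p : ℂ) else 0 := by
  have h1 : ∀ u : ZMod p, (∑ b ∈ Bp p D β, (ZMod.stdAddChar (-(u * (b : ZMod p))) : ℂ)) *
      (ZMod.stdAddChar (u * x) : ℂ) =
      ∑ b ∈ Bp p D β, (ZMod.stdAddChar (u * (x - (b : ZMod p))) : ℂ) := by
    intro u
    rw [Finset.sum_mul]
    refine Finset.sum_congr rfl fun b _ => ?_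
    rw [← AddChar.map_add_eq_mul]
    congr 1
    ring
  rw [Finset.sum_congr rfl fun u _ => h1 u, Finset.sum_comm]
  have h2 : ∀ b ∈ Bp p D β, ∑ u : ZMod p, (ZMod.stdAddChar (u * (x - (b : ZMod p))) : ℂ) =
      if b = x.val then (p : ℂ) else 0 := by
    intro b hb
    have hbp : b < p := by
      unfold Bp at hb
      exact Finset.mem_range.mp (Finset.mem_filter.mp hb).1
    rw [AddChar.sum_mulShift _ (ZMod.isPrimitive_stdAddChar p), ZMod.card]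
    have h3 : (x - (b : ZMod p) = 0) ↔ b = x.val := by
      rw [sub_eq_zero]
      constructor
      · intro h
        rw [h, ZMod.val_natCast, Nat.mod_eq_of_lt hbp]
      · intro h
        rw [h, ZMod.natCast_zmod_val]
    by_cases h4 : b = x.val
    · rw [if_pos h4, if_pos (h3.mpr h4)]
    · rw [if_neg h4, if_neg (fun h => h4 (h3.mp h))]
      simp
  rw [Finset.sum_congr rfl h2, Finset.sum_ite_eq']

private theorem Cnt_card (p D β γ : ℕ) [Fact p.Prime] :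
    ((range p ×ˢ range p).filter
      (fun x => p ∣ 1 + x.1 * x.2 ∧ x.1 ≡ β [MOD D] ∧ x.2 ≡ γ [MOD D])).card =
    (((univ : Finset (ZMod p)).filter (fun x => x ≠ 0)).filter
      (fun x => x.val ∈ Bp p D β ∧ (-x⁻¹).val ∈ Bp p D γ)).card := by
  have hp : p.Prime := Fact.out
  have key : ∀ b c : ℕ, b < p → c < p → p ∣ 1 + b * c →
      (b : ZMod p) ≠ 0 ∧ (c : ZMod p) = -(b : ZMod p)⁻¹ := by
    intro b c hb hc h
    have h1 : (1 : ZMod p) + (b : ZMod p) * (c : ZMod p) = 0 := by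
      have := (ZMod.natCast_eq_zero_iff (1 + b * c) p).mpr h
      push_cast at this
      exact this
    have h0 : (b : ZMod p) ≠ 0 := by
      intro h2
      rw [h2, zero_mul, add_zero] at h1
      exact one_ne_zero h1
    refine ⟨h0, ?_⟩
    field_simp
    linear_combination h1
  refine Finset.card_nbij' (fun x => ((x.1 : ℕ) : ZMod p)) (fun x => (x.val, (-x⁻¹).val))
    ?_ ?_ ?_ ?_
  · rintro ⟨b, c⟩ h
    simp only [Finset.coe_filter, Set.mem_ofPred_eq, Finset.mem_product, Finset.mem_range] at h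
    obtain ⟨⟨hb, hc⟩, h1, h2, h3⟩ := h
    obtain ⟨k1, k2⟩ := key b c hb hc h1
    simp only [Finset.coe_filter, Set.mem_ofPred_eq, Finset.mem_filter, Finset.mem_univ, true_and]
    refine ⟨k1, ?_, ?_⟩
    · rw [ZMod.val_natCast, Nat.mod_eq_of_lt hb]
      unfold Bp
      exact Finset.mem_filter.mpr ⟨Finset.mem_range.mpr hb, h2⟩
    · rw [← k2, ZMod.val_natCast, Nat.mod_eq_of_lt hc]
      unfold Bp
      exact Finset.mem_filter.mpr ⟨Finset.mem_range.mpr hc, h3⟩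
  · intro x h
    simp only [Finset.coe_filter, Set.mem_ofPred_eq, Finset.mem_filter, Finset.mem_univ,
      true_and] at h
    obtain ⟨h0, h1, h2⟩ := h
    unfold Bp at h1 h2
    rw [Finset.mem_filter, Finset.mem_range] at h1 h2
    simp only [Finset.coe_filter, Set.mem_ofPred_eq, Finset.mem_product, Finset.mem_range]
    refine ⟨⟨h1.1, h2.1⟩, ?_, h1.2, h2.2⟩
    rw [← ZMod.natCast_eq_zero_iff]
    push_cast
    rw [ZMod.natCast_zmod_val, ZMod.natCast_zmod_val]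
    field_simp
    ring
  · rintro ⟨b, c⟩ h
    simp only [Finset.coe_filter, Set.mem_ofPred_eq, Finset.mem_product, Finset.mem_range] at h
    obtain ⟨⟨hb, hc⟩, h1, h2, h3⟩ := h
    obtain ⟨k1, k2⟩ := key b c hb hc h1
    simp only
    rw [← k2, ZMod.val_natCast, Nat.mod_eq_of_lt hb, ZMod.val_natCast, Nat.mod_eq_of_lt hc]
  · intro x h
    simp only
    rw [ZMod.natCast_zmod_val]

private theorem Cnt_main (p D β γ : ℕ) [Fact p.Prime] :
    ((((range p ×ˢ range p).filter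
      (fun x => p ∣ 1 + x.1 * x.2 ∧ x.1 ≡ β [MOD D] ∧ x.2 ≡ γ [MOD D])).card : ℕ) : ℂ) * (p : ℂ) ^ 2 =
    ∑ u : ZMod p, ∑ v : ZMod p, (∑ b ∈ Bp p D β, (ZMod.stdAddChar (-(u * (b : ZMod p))) : ℂ)) *
      (∑ b ∈ Bp p D γ, (ZMod.stdAddChar (-(v * (b : ZMod p))) : ℂ)) *
      ∑ x ∈ (univ : Finset (ZMod p)).filter (fun x => x ≠ 0),
        (ZMod.stdAddChar (u * x + (-v) * x⁻¹) : ℂ) := by
  rw [Cnt_card, Finset.card_filter]
  push_cast
  have h1 : ∀ x ∈ (univ : Finset (ZMod p)).filter (fun x => x ≠ 0),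
      (if x.val ∈ Bp p D β ∧ (-x⁻¹).val ∈ Bp p D γ then (1 : ℂ) else 0) * (p : ℂ) ^ 2 =
      (∑ u : ZMod p, (∑ b ∈ Bp p D β, (ZMod.stdAddChar (-(u * (b : ZMod p))) : ℂ)) *
        (ZMod.stdAddChar (u * x) : ℂ)) *
      (∑ v : ZMod p, (∑ b ∈ Bp p D γ, (ZMod.stdAddChar (-(v * (b : ZMod p))) : ℂ)) *
        (ZMod.stdAddChar (v * (-x⁻¹)) : ℂ)) := by
    intro x _
    rw [Cnt_inv, Cnt_inv]
    by_cases h1 : x.val ∈ Bp p D β
    · by_cases h2 : (-x⁻¹).val ∈ Bp p D γ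
      · rw [if_pos ⟨h1, h2⟩, if_pos h1, if_pos h2]
        ring
      · rw [if_neg (fun h => h2 h.2), if_neg h2]
        ring
    · rw [if_neg (fun h => h1 h.1), if_neg h1]
      ring
  rw [Finset.sum_mul, Finset.sum_congr rfl h1]
  refine (Finset.sum_congr rfl fun x _ => Finset.sum_mul_sum _ _ _ _).trans ?_
  rw [Finset.sum_comm]
  refine Finset.sum_congr rfl fun u _ => ?_
  rw [Finset.sum_comm]
  refine Finset.sum_congr rfl fun v _ => ?_
  rw [Finset.mul_sum]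
  refine Finset.sum_congr rfl fun x _ => ?_
  rw [AddChar.map_add_eq_mul]
  have h2 : v * (-x⁻¹) = (-v) * x⁻¹ := by ring
  rw [h2]
  ring

private theorem Cnt_err (P w a c : ℝ) (hP : 1 ≤ P) (hw : 0 ≤ w) (hwP : w ≤ P)
    (ha : |a - w| ≤ 1) (hc : |c - w| ≤ 1) :
    |a * c * (P - 1) - w ^ 2 * P| ≤ 4 * P ^ 2 := by
  have e1 : a * c * (P - 1) - w ^ 2 * P =
      ((a - w) * (c - w) + (a - w) * w + (c - w) * w) * (P - 1) - w ^ 2 := by ring
  have h1 : |(a - w) * (c - w)| ≤ 1 := by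
    rw [abs_mul]
    exact mul_le_one₀ ha (abs_nonneg _) hc
  have h2 : |(a - w) * w| ≤ w := by
    rw [abs_mul, abs_of_nonneg hw]
    exact mul_le_of_le_one_left hw ha
  have h3 : |(c - w) * w| ≤ w := by
    rw [abs_mul, abs_of_nonneg hw]
    exact mul_le_of_le_one_left hw hc
  have h4 : |(a - w) * (c - w) + (a - w) * w + (c - w) * w| ≤ 1 + w + w := by
    refine (abs_add_le _ _).trans ?_
    have := abs_add_le ((a - w) * (c - w)) ((a - w) * w)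
    linarith
  rw [e1]
  refine (abs_sub _ _).trans ?_
  rw [abs_mul, abs_of_nonneg (by linarith : (0 : ℝ) ≤ P - 1), abs_of_nonneg (sq_nonneg w)]
  have h5 : |(a - w) * (c - w) + (a - w) * w + (c - w) * w| * (P - 1) ≤ (1 + w + w) * (P - 1) :=
    mul_le_mul_of_nonneg_right h4 (by linarith)
  have h6 : (1 + w + w) * (P - 1) ≤ (1 + P + P) * (P - 1) :=
    mul_le_mul_of_nonneg_right (by linarith) (by linarith)
  have h7 : w ^ 2 ≤ P ^ 2 := by
    exact pow_le_pow_left₀ hw hwP 2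
  nlinarith

theorem kl_count (p D β γ : ℕ) [Fact p.Prime] (hD : 0 < D) (hc : Nat.Coprime D p) :
    |(((range p ×ˢ range p).filter
      (fun x => p ∣ 1 + x.1 * x.2 ∧ x.1 ≡ β [MOD D] ∧ x.2 ≡ γ [MOD D])).card : ℝ) - (p : ℝ) / (D : ℝ) ^ 2| ≤
      3 * √p * (3 + Real.log p) ^ 2 := by
  have hp : p.Prime := Fact.out
  have hp1 : (1 : ℝ) ≤ (p : ℝ) := by exact_mod_cast hp.one_lt.le
  have hp0 : (0 : ℝ) < (p : ℝ) := by linarith
  have hlog : 0 ≤ Real.log p := Real.log_nonneg hp1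
  have hsq : (1 : ℝ) ≤ √p := by
    rw [Real.one_le_sqrt]
    exact hp1
  have hD1 : (1 : ℝ) ≤ (D : ℝ) := by exact_mod_cast hD
  have hD0 : (0 : ℝ) < (D : ℝ) := by linarith
  set N : ℕ := ((range p ×ˢ range p).filter
      (fun x => p ∣ 1 + x.1 * x.2 ∧ x.1 ≡ β [MOD D] ∧ x.2 ≡ γ [MOD D])).card with hN
  set FB : ZMod p → ℂ := fun u => ∑ b ∈ Bp p D β, (ZMod.stdAddChar (-(u * (b : ZMod p))) : ℂ)
    with hFB
  set FC : ZMod p → ℂ := fun u => ∑ b ∈ Bp p D γ, (ZMod.stdAddChar (-(u * (b : ZMod p))) : ℂ)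
    with hFC
  set K : ZMod p → ZMod p → ℂ := fun u v => ∑ x ∈ (univ : Finset (ZMod p)).filter (fun x => x ≠ 0),
        (ZMod.stdAddChar (u * x + (-v) * x⁻¹) : ℂ) with hK
  have hmain : (N : ℂ) * (p : ℂ) ^ 2 = ∑ u : ZMod p, ∑ v : ZMod p, FB u * FC v * K u v :=
    Cnt_main p D β γ
  have hB : ∑ u : ZMod p, ‖FB u‖ ≤ p * (3 + Real.log p) := prog_l1 p D β hD hc
  have hC : ∑ u : ZMod p, ‖FC u‖ ≤ p * (3 + Real.log p) := prog_l1 p D γ hD hc
  have hFB0 : FB 0 = ((Bp p D β).card : ℂ) := by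
    simp [hFB]
  have hFC0 : FC 0 = ((Bp p D γ).card : ℂ) := by
    simp [hFC]
  have hK0 : K 0 0 = (p : ℂ) - 1 := by
    simp only [hK]
    have h1 : ((univ : Finset (ZMod p)).filter (fun x => x ≠ 0)).card = p - 1 := by
      rw [Finset.filter_ne', Finset.card_erase_of_mem (Finset.mem_univ _), Finset.card_univ,
        ZMod.card]
    simp only [zero_mul, neg_zero, add_zero, AddChar.map_zero_eq_one, Finset.sum_const, h1,
      nsmul_eq_mul, mul_one]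
    rw [Nat.cast_sub hp.one_lt.le, Nat.cast_one]
  have hsub : (N : ℂ) * (p : ℂ) ^ 2 - ((Bp p D β).card : ℂ) * ((Bp p D γ).card : ℂ) * ((p : ℂ) - 1) =
      ∑ z ∈ ((univ : Finset (ZMod p)) ×ˢ (univ : Finset (ZMod p))).erase (0, 0),
        FB z.1 * FC z.2 * K z.1 z.2 := by
    rw [hmain, ← Finset.sum_product', ← Finset.sum_erase_add _ _ (a := ((0 : ZMod p), (0 : ZMod p)))
      (Finset.mem_product.mpr ⟨Finset.mem_univ _, Finset.mem_univ _⟩)]
    simp only [hFB0, hFC0, hK0]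
    ring
  have hbound : ‖(N : ℂ) * (p : ℂ) ^ 2 -
      ((Bp p D β).card : ℂ) * ((Bp p D γ).card : ℂ) * ((p : ℂ) - 1)‖ ≤
      2 * √p * ((p : ℝ) * (3 + Real.log p)) ^ 2 := by
    rw [hsub]
    refine (norm_sum_le _ _).trans ?_
    have h1 : ∀ z ∈ ((univ : Finset (ZMod p)) ×ˢ (univ : Finset (ZMod p))).erase (0, 0),
        ‖FB z.1 * FC z.2 * K z.1 z.2‖ ≤ 2 * √p * (‖FB z.1‖ * ‖FC z.2‖) := by
      rintro ⟨u, v⟩ hz
      have hz1 := (Finset.mem_erase.mp hz).1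
      have h2 : ‖K u v‖ ≤ 2 * √p := by
        refine kl_pair p u (-v) ?_
        by_contra hcon
        push Not at hcon
        apply hz1
        rw [hcon.1, neg_eq_zero.mp hcon.2]
      simp only
      rw [norm_mul, norm_mul]
      calc ‖FB u‖ * ‖FC v‖ * ‖K u v‖ ≤ ‖FB u‖ * ‖FC v‖ * (2 * √p) :=
            mul_le_mul_of_nonneg_left h2 (by positivity)
        _ = 2 * √p * (‖FB u‖ * ‖FC v‖) := by ring
    refine (Finset.sum_le_sum h1).trans ?_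
    have h3 : ∑ z ∈ ((univ : Finset (ZMod p)) ×ˢ (univ : Finset (ZMod p))).erase (0, 0),
        2 * √p * (‖FB z.1‖ * ‖FC z.2‖) ≤
        ∑ z ∈ ((univ : Finset (ZMod p)) ×ˢ (univ : Finset (ZMod p))),
        2 * √p * (‖FB z.1‖ * ‖FC z.2‖) :=
      Finset.sum_le_sum_of_subset_of_nonneg (Finset.erase_subset _ _)
        (fun z _ _ => by positivity)
    refine h3.trans ?_
    rw [← Finset.mul_sum]
    refine mul_le_mul_of_nonneg_left ?_ (by positivity)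
    have h4 : ∑ z ∈ ((univ : Finset (ZMod p)) ×ˢ (univ : Finset (ZMod p))),
        ‖FB z.1‖ * ‖FC z.2‖ = (∑ u : ZMod p, ‖FB u‖) * (∑ v : ZMod p, ‖FC v‖) := by
      rw [Finset.sum_mul_sum, Finset.sum_product]
    rw [h4, sq]
    exact mul_le_mul hB hC (Finset.sum_nonneg fun _ _ => norm_nonneg _) (by positivity)
  have hreal : |(N : ℝ) * (p : ℝ) ^ 2 - ((Bp p D β).card : ℝ) * ((Bp p D γ).card : ℝ) * ((p : ℝ) - 1)| ≤
      2 * √p * ((p : ℝ) * (3 + Real.log p)) ^ 2 := by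
    have h1 : (N : ℂ) * (p : ℂ) ^ 2 - ((Bp p D β).card : ℂ) * ((Bp p D γ).card : ℂ) * ((p : ℂ) - 1) =
        (((N : ℝ) * (p : ℝ) ^ 2 -
          ((Bp p D β).card : ℝ) * ((Bp p D γ).card : ℝ) * ((p : ℝ) - 1) : ℝ) : ℂ) := by
      push_cast
      ring
    rw [h1, Complex.norm_real, Real.norm_eq_abs] at hbound
    exact hbound
  have hB1 := prog_card p D β hD
  have hC1 := prog_card p D γ hD
  have hw0 : (0 : ℝ) ≤ (p : ℝ) / (D : ℝ) := by positivity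
  have hwP : (p : ℝ) / (D : ℝ) ≤ (p : ℝ) := div_le_self hp0.le hD1
  have herr := Cnt_err (p : ℝ) ((p : ℝ) / (D : ℝ)) ((Bp p D β).card : ℝ) ((Bp p D γ).card : ℝ)
    hp1 hw0 hwP hB1 hC1
  have h9 : (4 : ℝ) ≤ √p * (3 + Real.log p) ^ 2 := by
    have h1 : (9 : ℝ) ≤ (3 + Real.log p) ^ 2 := by nlinarith
    have h2 : (1 : ℝ) * 9 ≤ √p * (3 + Real.log p) ^ 2 :=
      mul_le_mul hsq h1 (by norm_num) (by linarith)
    linarith
  have e2 : ((N : ℝ) - (p : ℝ) / (D : ℝ) ^ 2) * (p : ℝ) ^ 2 =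
      ((N : ℝ) * (p : ℝ) ^ 2 - ((Bp p D β).card : ℝ) * ((Bp p D γ).card : ℝ) * ((p : ℝ) - 1)) +
      (((Bp p D β).card : ℝ) * ((Bp p D γ).card : ℝ) * ((p : ℝ) - 1) -
        ((p : ℝ) / (D : ℝ)) ^ 2 * (p : ℝ)) := by
    field_simp
    ring
  have e3 : |((N : ℝ) - (p : ℝ) / (D : ℝ) ^ 2) * (p : ℝ) ^ 2| ≤
      (3 * √p * (3 + Real.log p) ^ 2) * (p : ℝ) ^ 2 := by
    rw [e2]
    refine (abs_add_le _ _).trans ?_
    have h1 : 4 * (p : ℝ) ^ 2 ≤ √p * (3 + Real.log p) ^ 2 * (p : ℝ) ^ 2 :=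
      mul_le_mul_of_nonneg_right h9 (by positivity)
    have h2 : 2 * √p * ((p : ℝ) * (3 + Real.log p)) ^ 2 =
        2 * (√p * (3 + Real.log p) ^ 2 * (p : ℝ) ^ 2) := by ring
    have h3 : (3 * √p * (3 + Real.log p) ^ 2) * (p : ℝ) ^ 2 =
        3 * (√p * (3 + Real.log p) ^ 2 * (p : ℝ) ^ 2) := by ring
    linarith
  rw [abs_mul, abs_of_nonneg (by positivity : (0 : ℝ) ≤ (p : ℝ) ^ 2)] at e3
  exact le_of_mul_le_mul_right e3 (by positivity)

end Pool.Agent.Lib.MP_d57abb_nt.AP
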