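import Mathlib
import Pool.Agent.Lib.MP_d57abb_nt.AP.Defs
import Pool.Agent.Lib.MP_d57abb_nt.AP.Cnt

/-!
# JOB Cls: the family in residue classes

PROOF of `cls_count`: induction on `T`, for all `D, β, γ`.  `T = ∅`: `kl_count`.  `insert q T`: the set for `insert q T`, `D`, `β`, `γ` is the disjoint union over `s ∈ Bq q` of the sets for `T`, `D q`, `β_s`, `γ_s`, where `β_s ≡ β (mod D)`, `β_s ≡ s.1 (mod q)`,
`γ_s ≡ γ (mod D)`, `γ_s ≡ s.2 (mod q)` (`Nat.chineseRemainder`; `D` and `q` are coprime): `(x.1 % q, x.2 % q) = s` iff `x.1 ≡ s.1`, `x.2 ≡ s.2 (mod q)` as `s.1, s.2 < q` (`Nat.modEq_and_modEq_iff_modEq_mul`).  Hence the count differs from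
`|Bq q| * a / (D q)² * ∏_T = a / D² * ∏_{insert q T}` by at most `|Bq q| ∏_T |Bq| E`.
PROOF of `fam_count`: `D = G`, `β = B`, `γ = 0`, and `∏ |Bq q| ≤ ∏ q²`.
-/

open Finset

namespace Pool.Agent.Lib.MP_d57abb_nt.AP

private theorem Cls_split (D q β r x : ℕ) (hc : Nat.Coprime D q) (hr : r < q) :
    (x ≡ β [MOD D] ∧ x % q = r) ↔ x ≡ (Nat.chineseRemainder hc β r : ℕ) [MOD D * q] := by
  have h1 := (Nat.chineseRemainder hc β r).2.1
  have h2 := (Nat.chineseRemainder hc β r).2.2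
  constructor
  · rintro ⟨ha, hb⟩
    rw [← Nat.modEq_and_modEq_iff_modEq_mul hc]
    refine ⟨ha.trans h1.symm, ?_⟩
    have hb' : x ≡ r [MOD q] := by
      show x % q = r % q
      rw [hb, Nat.mod_eq_of_lt hr]
    exact hb'.trans h2.symm
  · intro h
    rw [← Nat.modEq_and_modEq_iff_modEq_mul hc] at h
    refine ⟨h.1.trans h1, ?_⟩
    have h3 : x ≡ r [MOD q] := h.2.trans h2
    have h4 : x % q = r % q := h3
    rw [h4, Nat.mod_eq_of_lt hr]

theorem cls_count (a : ℕ) [Fact a.Prime] (Bq : ℕ → Finset (ℕ × ℕ)) (T : Finset ℕ)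
    (hT : ∀ q ∈ T, q.Prime ∧ q ≠ a) (hB : ∀ q ∈ T, Bq q ⊆ range q ×ˢ range q) :
    ∀ D β γ : ℕ, 0 < D → Nat.Coprime D a → (∀ q ∈ T, ¬ q ∣ D) →
    |(((range a ×ˢ range a).filter (fun x => (a ∣ 1 + x.1 * x.2 ∧ x.1 ≡ β [MOD D] ∧ x.2 ≡ γ [MOD D]) ∧
      ∀ q ∈ T, (x.1 % q, x.2 % q) ∈ Bq q)).card : ℝ) -
        (a : ℝ) / (D : ℝ) ^ 2 * ∏ q ∈ T, ((Bq q).card : ℝ) / (q : ℝ) ^ 2| ≤
      (∏ q ∈ T, ((Bq q).card : ℝ)) * (3 * √a * (3 + Real.log a) ^ 2) := by
  classical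
  induction T using Finset.induction_on with
  | empty =>
    intro D β γ hD hDa _
    have h := kl_count a D β γ hD hDa
    simp only [prod_empty, mul_one, one_mul, notMem_empty, false_implies, implies_true, and_true]
    exact h
  | insert q T hqT ih =>
    intro D β γ hD hDa hdiv
    have hqp : q.Prime := (hT q (mem_insert_self q T)).1
    have hqa : q ≠ a := (hT q (mem_insert_self q T)).2
    have hap : a.Prime := Fact.out
    have hqD : ¬ q ∣ D := hdiv q (mem_insert_self q T)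
    have hcop : Nat.Coprime D q := ((Nat.Prime.coprime_iff_not_dvd hqp).mpr hqD).symm
    have hBq : Bq q ⊆ range q ×ˢ range q := hB q (mem_insert_self q T)
    have ih' := ih (fun r hr => hT r (mem_insert_of_mem hr)) (fun r hr => hB r (mem_insert_of_mem hr))
    have hDq : 0 < D * q := Nat.mul_pos hD hqp.pos
    have hDqa : Nat.Coprime (D * q) a :=
      Nat.Coprime.mul_left hDa ((Nat.coprime_primes hqp hap).mpr hqa)
    have hdiv' : ∀ r ∈ T, ¬ r ∣ D * q := by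
      intro r hr hrd
      have hrp : r.Prime := (hT r (mem_insert_of_mem hr)).1
      rcases (Nat.Prime.dvd_mul hrp).mp hrd with h | h
      · exact hdiv r (mem_insert_of_mem hr) h
      · have : r = q := (Nat.prime_dvd_prime_iff_eq hrp hqp).mp h
        exact hqT (this ▸ hr)
    set S := (range a ×ˢ range a).filter (fun x => (a ∣ 1 + x.1 * x.2 ∧ x.1 ≡ β [MOD D] ∧
      x.2 ≡ γ [MOD D]) ∧ ∀ q' ∈ insert q T, (x.1 % q', x.2 % q') ∈ Bq q') with hS
    have hcard : S.card = ∑ s ∈ Bq q, (S.filter (fun x => (x.1 % q, x.2 % q) = s)).card := by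
      apply card_eq_sum_card_fiberwise
      intro x hx
      have hx' : x ∈ S := hx
      rw [hS, mem_filter] at hx'
      exact hx'.2.2 q (mem_insert_self q T)
    have hpt : ∀ s ∈ Bq q, |((S.filter (fun x => (x.1 % q, x.2 % q) = s)).card : ℝ) -
        (a : ℝ) / ((D * q : ℕ) : ℝ) ^ 2 * ∏ r ∈ T, ((Bq r).card : ℝ) / (r : ℝ) ^ 2| ≤
        (∏ r ∈ T, ((Bq r).card : ℝ)) * (3 * √a * (3 + Real.log a) ^ 2) := by
      intro s hs
      have hs2 := mem_product.mp (hBq hs)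
      have hs21 := mem_range.mp hs2.1
      have hs22 := mem_range.mp hs2.2
      have h3 := ih' (D * q) (Nat.chineseRemainder hcop β s.1) (Nat.chineseRemainder hcop γ s.2)
        hDq hDqa hdiv'
      have h4 : S.filter (fun x => (x.1 % q, x.2 % q) = s) =
          (range a ×ˢ range a).filter (fun x => (a ∣ 1 + x.1 * x.2 ∧
            x.1 ≡ (Nat.chineseRemainder hcop β s.1 : ℕ) [MOD D * q] ∧
            x.2 ≡ (Nat.chineseRemainder hcop γ s.2 : ℕ) [MOD D * q]) ∧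
            ∀ q' ∈ T, (x.1 % q', x.2 % q') ∈ Bq q') := by
        ext x
        rw [hS, mem_filter, mem_filter, mem_filter, ← Cls_split D q β s.1 x.1 hcop hs21,
          ← Cls_split D q γ s.2 x.2 hcop hs22]
        constructor
        · rintro ⟨⟨hx0, ⟨hx1, hx2, hx3⟩, hx4⟩, hx5⟩
          refine ⟨hx0, ⟨hx1, ⟨hx2, ?_⟩, ⟨hx3, ?_⟩⟩, fun r hr => hx4 r (mem_insert_of_mem hr)⟩
          · exact congrArg Prod.fst hx5
          · exact congrArg Prod.snd hx5
        · rintro ⟨hx0, ⟨hx1, ⟨hx2, hx2'⟩, ⟨hx3, hx3'⟩⟩, hx4⟩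
          have h5 : (x.1 % q, x.2 % q) = s := Prod.ext hx2' hx3'
          refine ⟨⟨hx0, ⟨hx1, hx2, hx3⟩, ?_⟩, h5⟩
          intro r hr
          rcases mem_insert.mp hr with h | h
          · rw [h, h5]
            exact hs
          · exact hx4 r h
      rw [h4]
      exact h3
    have hmain : (a : ℝ) / (D : ℝ) ^ 2 * ∏ r ∈ insert q T, ((Bq r).card : ℝ) / (r : ℝ) ^ 2 =
        ∑ s ∈ Bq q, ((a : ℝ) / ((D * q : ℕ) : ℝ) ^ 2 * ∏ r ∈ T, ((Bq r).card : ℝ) / (r : ℝ) ^ 2) := by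
      rw [prod_insert hqT, sum_const, nsmul_eq_mul]
      have hD0 : (D : ℝ) ≠ 0 := by exact_mod_cast hD.ne'
      have hq0 : (q : ℝ) ≠ 0 := by exact_mod_cast hqp.pos.ne'
      rw [Nat.cast_mul]
      generalize (∏ r ∈ T, ((Bq r).card : ℝ) / (r : ℝ) ^ 2) = P
      generalize ((Bq q).card : ℝ) = k
      generalize (D : ℝ) = D' at hD0
      generalize (q : ℝ) = q' at hq0
      generalize (a : ℝ) = a'
      clear * - hD0 hq0
      field_simp
    rw [hcard, hmain, Nat.cast_sum, ← sum_sub_distrib, prod_insert hqT]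
    refine (abs_sum_le_sum_abs _ _).trans ?_
    refine (sum_le_sum hpt).trans ?_
    rw [sum_const, nsmul_eq_mul]
    exact le_of_eq (mul_assoc _ _ _).symm

theorem fam_count (a G B : ℕ) [Fact a.Prime] (hG : 0 < G) (hc : Nat.Coprime G a)
    (Bq : ℕ → Finset (ℕ × ℕ)) (T : Finset ℕ) (hT : ∀ q ∈ T, q.Prime ∧ q ≠ a ∧ ¬ q ∣ G)
    (hB : ∀ q ∈ T, Bq q ⊆ range q ×ˢ range q) :
    |(((Fam a G B).filter (fun x => ∀ q ∈ T, (x.1 % q, x.2 % q) ∈ Bq q)).card : ℝ) -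
        (a : ℝ) / (G : ℝ) ^ 2 * ∏ q ∈ T, ((Bq q).card : ℝ) / (q : ℝ) ^ 2| ≤
      (∏ q ∈ T, (q : ℝ)) ^ 2 * (3 * √a * (3 + Real.log a) ^ 2) := by
  have h := cls_count a Bq T (fun q hq => ⟨(hT q hq).1, (hT q hq).2.1⟩) hB G B 0 hG hc
    (fun q hq => (hT q hq).2.2)
  have h1 : (Fam a G B).filter (fun x => ∀ q ∈ T, (x.1 % q, x.2 % q) ∈ Bq q) =
      (range a ×ˢ range a).filter (fun x => (a ∣ 1 + x.1 * x.2 ∧ x.1 ≡ B [MOD G] ∧
        x.2 ≡ 0 [MOD G]) ∧ ∀ q ∈ T, (x.1 % q, x.2 % q) ∈ Bq q) := by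
    unfold Fam
    rw [filter_filter]
  rw [h1]
  refine h.trans ?_
  apply mul_le_mul_of_nonneg_right
  · rw [← prod_pow]
    apply prod_le_prod
    · intro q _
      positivity
    · intro q hq
      have h2 := card_le_card (hB q hq)
      rw [card_product, card_range] at h2
      have h3 : ((Bq q).card : ℝ) ≤ ((q * q : ℕ) : ℝ) := by exact_mod_cast h2
      refine h3.trans (le_of_eq ?_)
      push_cast
      ring
  · have h4 : 0 ≤ √(a : ℝ) := Real.sqrt_nonneg _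
    positivity

end Pool.Agent.Lib.MP_d57abb_nt.AP
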