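import Mathlib
import Pool.Agent.Lib.MP_d57abb_nt.AP.Defs
import Pool.Agent.Lib.MP_d57abb_nt.All.LocB

/-!
# JOB Frm: the frame given by the Ramsey property

PROOF: this is the middle part of the proof of `loc_of_propB` (`All/LocB.lean`, complete there: copy it), for an arbitrary `v` with `dt (ml δ₀ u) v = 1`: colouring `b t = lam h (ml δ₀ u + (t : ℤ) • v)`, `t, d` from `PropX`, `t = d s`,
`A = ml (co d) u`, `B' = ml δ' v` (`δ'` the conjugate of `dl d`), `u' = A + s • B'`, `u'' = A + (s + 1) • B'`.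
-/

open Finset

namespace Pool.Agent.Lib.MP_d57abb_nt.AP

open Pool.Agent.Lib.MP_d57abb_nt Pool.Agent.Lib.MP_d57abb_nt.All

private theorem Frm_ml_assoc (x y z : ℤ × ℤ) : ml x (ml y z) = ml (ml x y) z := by
  unfold ml
  ext
  · simp only
    ring
  · simp only
    ring

private theorem Frm_conj (x y : ℤ × ℤ) : ml x (ml (x.1 + 3 * x.2, -x.2) y) = nm x • y := by
  unfold ml nm
  ext
  · simp only [Prod.smul_fst, smul_eq_mul]
    ring
  · simp only [Prod.smul_snd, smul_eq_mul]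
    ring

private theorem Frm_lin (x A B : ℤ × ℤ) (k : ℤ) : ml x (A + k • B) = ml x A + k • ml x B := by
  unfold ml
  ext
  · simp only [Prod.fst_add, Prod.snd_add, Prod.smul_fst, Prod.smul_snd, smul_eq_mul]
    ring
  · simp only [Prod.fst_add, Prod.snd_add, Prod.smul_fst, Prod.smul_snd, smul_eq_mul]
    ring

private theorem Frm_dt (x y z : ℤ × ℤ) : dt (ml x y) (ml x z) = nm x * dt y z := by
  unfold ml dt nm
  simp only
  ring

private theorem Frm_dt2 (A B : ℤ × ℤ) (k : ℤ) : dt (A + k • B) (A + (k + 1) • B) = dt A B := by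
  unfold dt
  simp only [Prod.fst_add, Prod.snd_add, Prod.smul_fst, Prod.smul_snd, smul_eq_mul]
  ring

private theorem Frm_TP_add {x y : ℤ × ℤ} (hx : TP x) (hy : TP y) (k : ℕ) : TP (x + (k : ℤ) • y) := by
  have h : (0 : ℝ) ≤ ((k : ℤ) : ℝ) := by positivity
  refine ⟨?_, ?_⟩
  · rw [pp_add, pp_smul]
    exact add_pos_of_pos_of_nonneg hx.1 (mul_nonneg h hy.1.le)
  · rw [qq_add, qq_smul]
    exact add_pos_of_pos_of_nonneg hx.2 (mul_nonneg h hy.2.le)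

private theorem Frm_TP_of {x y : ℤ × ℤ} (hx : TP x) (hy : TP (ml x y)) : TP y := by
  obtain ⟨h1, h2⟩ := hy
  rw [pp_ml] at h1
  rw [qq_ml] at h2
  exact ⟨(mul_pos_iff_of_pos_left hx.1).1 h1, (mul_pos_iff_of_pos_left hx.2).1 h2⟩

private theorem Frm_lam {m : ℕ} {h : ℕ → ZMod m} (hh : Add h) {x y : ℤ × ℤ} {d : ℕ} (hd : 0 < d)
    (hx : nm x = d) (hy : TP y) : lam h (ml x y) = h d + lam h y := by
  have hy0 := hy.nm_pos
  unfold lam
  rw [nm_ml, hx, Int.natAbs_mul, Int.natAbs_natCast]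
  exact hh _ _ hd (Int.natAbs_pos.2 hy0.ne')

theorem frame_of_propX {m : ℕ} {h : ℕ → ZMod m} (hh : Add h) {c : ZMod m} {X : ℕ} (hX : PropX h c X)
    {δ₀ : ℤ × ℤ} {dl co : ℕ → ℤ × ℤ} (ht : TP δ₀) (hS : Sys X δ₀ dl co) {u v : ℤ × ℤ} (hu : TP u)
    (hv : TP v) (hd : dt (ml δ₀ u) v = 1) :
    ∃ (t d : ℕ) (u' u'' : ℤ × ℤ), Spl d ∧ t + d ≤ X ∧ TP u' ∧ TP u'' ∧ dt u' u'' = 1 ∧
      ml (dl d) u' = ml δ₀ u + (t : ℤ) • v ∧ ml (dl d) u'' = ml δ₀ u + ((t + d : ℕ) : ℤ) • v ∧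
      lam h u' + lam h u'' = c := by
  obtain ⟨z, hz⟩ : ∃ z, z = ml δ₀ u := ⟨_, rfl⟩
  rw [← hz] at hd ⊢
  have hzT : TP z := by rw [hz]; exact ht.ml hu
  obtain ⟨t, d, hSpl, ⟨s, hs⟩, htd, hb⟩ := hX (fun t => lam h (z + (t : ℤ) • v))
  have hd0 : 0 < d := hSpl.1
  have hdX : d ≤ X := by omega
  obtain ⟨hdl, hdln, hco, hdc⟩ := hS d hSpl hdX
  obtain ⟨A, hA⟩ : ∃ A, A = ml (co d) u := ⟨_, rfl⟩
  obtain ⟨B', hB'⟩ : ∃ B', B' = ml ((dl d).1 + 3 * (dl d).2, -(dl d).2) v := ⟨_, rfl⟩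
  have hmA : ml (dl d) A = z := by rw [hA, Frm_ml_assoc, hdc, hz]
  have hmB : ml (dl d) B' = (d : ℤ) • v := by rw [hB', Frm_conj, hdln]
  have hmk : ∀ k : ℕ, ml (dl d) (A + (k : ℤ) • B') = z + ((d * k : ℕ) : ℤ) • v := by
    intro k
    rw [Frm_lin, hmA, hmB, smul_smul]
    congr 2
    push_cast
    ring
  have hkT : ∀ k : ℕ, TP (A + (k : ℤ) • B') := by
    intro k
    refine Frm_TP_of hdl ?_
    rw [hmk]
    exact Frm_TP_add hzT hv _
  have hAB : dt A B' = 1 := by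
    have h1 := Frm_dt (dl d) A B'
    rw [hmA, hmB, dt_smul_right, hd, hdln, mul_one] at h1
    have h2 : (d : ℤ) ≠ 0 := by exact_mod_cast hd0.ne'
    have h3 : (d : ℤ) * dt A B' = d * 1 := by rw [mul_one]; exact h1.symm
    exact mul_left_cancel₀ h2 h3
  have hlamk : ∀ k : ℕ, lam h (z + ((d * k : ℕ) : ℤ) • v) = h d + lam h (A + (k : ℤ) • B') := by
    intro k
    rw [← hmk, Frm_lam hh hd0 hdln (hkT k)]
  have hs' : t + d = d * (s + 1) := by rw [hs]; ring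
  refine ⟨t, d, A + (s : ℤ) • B', A + ((s + 1 : ℕ) : ℤ) • B', hSpl, htd, hkT s, hkT (s + 1),
    ?_, ?_, ?_, ?_⟩
  · push_cast
    rw [Frm_dt2, hAB]
  · rw [hmk, hs]
  · rw [hmk, hs']
  · have e1 : lam h (z + (t : ℤ) • v) = h d + lam h (A + (s : ℤ) • B') := by
      rw [hs]
      exact hlamk s
    have e2 : lam h (z + ((t + d : ℕ) : ℤ) • v) = h d + lam h (A + ((s + 1 : ℕ) : ℤ) • B') := by
      rw [hs']
      exact hlamk (s + 1)
    have hb' : lam h (z + (t : ℤ) • v) + lam h (z + ((t + d : ℕ) : ℤ) • v) = c + 2 * h d := hb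
    rw [e1, e2] at hb'
    linear_combination hb'

end Pool.Agent.Lib.MP_d57abb_nt.AP
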