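import Mathlib
import Pool.Agent.Lib.MP_d57abb_nt.AP.Defs

/-!
# JOB Om: bounds for the number of prime factors

PROOF of `omega_le`.  `Ω n = ∑_{q ∣ n} v_q(n)` (`ArithmeticFunction.cardFactors`, `Nat.factorization`).  The primes `q ≤ w` contribute at most `E` each (`v_q(n) < E` as `q^E ∤ n`, `Nat.Prime.pow_dvd_iff_le_factorization`), in total at most `w E`; no prime in `(w, z]`
divides `n`; the primes `> z` have `∏ q^(v_q) ≤ n`, so `z^(∑ v_q) ≤ n`, `∑_{q > z} v_q ≤ log n / log z`.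
PROOF of `small_val`.  `nm z ≡ nm (1, B + t) (mod G)`, `q^E ∣ (w!)^E = G` for a prime `q ≤ w`; if `q^E ∣ nm z` then `q^E ∣ nm (1, B + t)`, but `0 < nm (1, B + t) = 1 + 3 (B + t) + (B + t)² < 2^E ≤ q^E`.
PROOF of `size`.  `e = (1 + b c) / a ≤ a` for `b, c < a` (`1 + b c ≤ 1 + (a-1)² ≤ a²`), so the coordinates of `zt a b c t` are in `[0, (t + 1) a]`, and `nm (x, y) ≤ 5 max(x, y)²`; `a² ≤ nm` because the first coordinate is `≥ a` and the second is `≥ 0`.
-/

open Finset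

namespace Pool.Agent.Lib.MP_d57abb_nt.AP

open Pool.Agent.Lib.MP_d57abb_nt

theorem omega_le (n : ℕ) (hn : 0 < n) (w E z : ℕ) (hz : 2 ≤ z) (h1 : ∀ q : ℕ, q.Prime → q ≤ w → ¬ q ^ E ∣ n)
    (h2 : ∀ q : ℕ, q.Prime → w < q → q ≤ z → ¬ q ∣ n) :
    (ArithmeticFunction.cardFactors n : ℝ) ≤ w * E + Real.log n / Real.log z := by
  have hsum : ArithmeticFunction.cardFactors n = ∑ q ∈ n.primeFactors, n.factorization q := by
    rw [ArithmeticFunction.cardFactors_eq_sum_factorization]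
    rfl
  have hsplit : ∑ q ∈ n.primeFactors, n.factorization q =
      ∑ q ∈ n.primeFactors.filter (fun q => q ≤ w), n.factorization q +
        ∑ q ∈ n.primeFactors.filter (fun q => ¬ q ≤ w), n.factorization q :=
    (Finset.sum_filter_add_sum_filter_not _ _ _).symm
  have hA : ∑ q ∈ n.primeFactors.filter (fun q => q ≤ w), n.factorization q ≤ w * E := by
    have h3 : ∀ q ∈ n.primeFactors.filter (fun q => q ≤ w), n.factorization q ≤ E := by
      intro q hq
      rw [Finset.mem_filter] at hq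
      have hqp := Nat.prime_of_mem_primeFactors hq.1
      by_contra hcon
      exact h1 q hqp hq.2 ((hqp.pow_dvd_iff_le_factorization hn.ne').2 (by omega))
    refine (Finset.sum_le_card_nsmul _ _ _ h3).trans ?_
    rw [smul_eq_mul]
    apply Nat.mul_le_mul_right
    have h4 : n.primeFactors.filter (fun q => q ≤ w) ⊆ Finset.Icc 1 w := by
      intro q hq
      rw [Finset.mem_filter] at hq
      exact Finset.mem_Icc.2 ⟨(Nat.prime_of_mem_primeFactors hq.1).one_le, hq.2⟩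
    have h5 := Finset.card_le_card h4
    simpa using h5
  set S := ∑ q ∈ n.primeFactors.filter (fun q => ¬ q ≤ w), n.factorization q with hS
  have hB : z ^ S ≤ n := by
    calc z ^ S = ∏ q ∈ n.primeFactors.filter (fun q => ¬ q ≤ w), z ^ n.factorization q := by
          rw [hS, Finset.prod_pow_eq_pow_sum]
      _ ≤ ∏ q ∈ n.primeFactors.filter (fun q => ¬ q ≤ w), q ^ n.factorization q := by
          apply Finset.prod_le_prod'
          intro q hq
          rw [Finset.mem_filter] at hq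
          have hqp := Nat.prime_of_mem_primeFactors hq.1
          have hzq : z ≤ q := by
            by_contra hcon
            exact h2 q hqp (not_le.1 hq.2) (by omega) (Nat.dvd_of_mem_primeFactors hq.1)
          exact Nat.pow_le_pow_left hzq _
      _ ≤ ∏ q ∈ n.primeFactors, q ^ n.factorization q := by
          apply Finset.prod_le_prod_of_subset_of_one_le' (Finset.filter_subset _ _)
          intro q hq _
          exact Nat.one_le_pow _ _ (Nat.prime_of_mem_primeFactors hq).pos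
      _ = n := Nat.prod_factorization_pow_eq_self hn.ne'
  have hlz : 0 < Real.log z := Real.log_pos (by exact_mod_cast hz)
  have hC : (S : ℝ) ≤ Real.log n / Real.log z := by
    rw [le_div_iff₀ hlz, ← Real.log_pow]
    have h6 : (0 : ℝ) < (z : ℝ) ^ S := by
      have : (0 : ℝ) < (z : ℝ) := by exact_mod_cast (by omega : 0 < z)
      positivity
    apply Real.log_le_log h6
    exact_mod_cast hB
  rw [hsum, hsplit]
  push_cast
  have hA' : ((∑ q ∈ n.primeFactors.filter (fun q => q ≤ w), n.factorization q : ℕ) : ℝ) ≤ w * E := by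
    exact_mod_cast hA
  push_cast at hA'
  linarith

theorem small_val (w E B t q : ℕ) (hq : q.Prime) (hqw : q ≤ w) (hE : nm (1, ((B + t : ℕ) : ℤ)) < 2 ^ E)
    (z : ℤ × ℤ) (h1 : (((w.factorial) ^ E : ℕ) : ℤ) ∣ z.1 - 1)
    (h2 : (((w.factorial) ^ E : ℕ) : ℤ) ∣ z.2 - ((B + t : ℕ) : ℤ)) : ¬ ((q ^ E : ℕ) : ℤ) ∣ nm z := by
  intro hd
  have hqG : ((q ^ E : ℕ) : ℤ) ∣ (((w.factorial) ^ E : ℕ) : ℤ) := by
    rw [Int.natCast_dvd_natCast]
    exact pow_dvd_pow_of_dvd ((Nat.Prime.dvd_factorial hq).2 hqw) E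
  have h3 := hqG.trans h1
  have h4 := hqG.trans h2
  obtain ⟨u, hu⟩ := h3
  obtain ⟨v, hv⟩ := h4
  obtain ⟨s, hs⟩ := hd
  set Q : ℤ := ((q ^ E : ℕ) : ℤ) with hQ
  set b : ℤ := ((B + t : ℕ) : ℤ) with hb
  have hz1 : z.1 = 1 + Q * u := by linarith
  have hz2 : z.2 = b + Q * v := by linarith
  have hval : nm z = z.1 ^ 2 + 3 * z.1 * z.2 + z.2 ^ 2 := rfl
  have hval2 : nm (1, b) = 1 ^ 2 + 3 * 1 * b + b ^ 2 := rfl
  have hdvd : Q ∣ nm (1, b) := by
    refine ⟨s - 2 * u - Q * u ^ 2 - 3 * (v + u * b + Q * u * v) - 2 * b * v - Q * v ^ 2, ?_⟩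
    rw [hval, hz1, hz2] at hs
    rw [hval2]
    linear_combination hs
  have hb0 : 0 ≤ b := by rw [hb]; exact Int.natCast_nonneg _
  have hpos : 0 < nm (1, b) := by
    rw [hval2]
    nlinarith
  have hle := Int.le_of_dvd hpos hdvd
  have h2q : (2 : ℤ) ^ E ≤ Q := by
    rw [hQ]
    have : 2 ^ E ≤ q ^ E := Nat.pow_le_pow_left hq.two_le E
    exact_mod_cast this
  linarith

theorem size (a b c t X : ℕ) (hb : b < a) (hc : c < a) (ht : t ≤ X) :
    (a : ℤ) ^ 2 ≤ nm (zt a b c t) ∧ nm (zt a b c t) ≤ 5 * ((X : ℤ) + 1) ^ 2 * (a : ℤ) ^ 2 := by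
  have ha : 0 < a := by omega
  set e : ℕ := (1 + b * c) / a with he
  have hea : e ≤ a := by
    rw [he]
    apply Nat.div_le_of_le_mul
    obtain ⟨b', hb'⟩ := Nat.exists_eq_add_of_lt hb
    have h1 : b * c ≤ (a - 1) * (a - 1) := Nat.mul_le_mul (by omega) (by omega)
    have h2 : 1 + (a - 1) * (a - 1) ≤ a * a := by
      obtain ⟨k, rfl⟩ : ∃ k, a = k + 1 := ⟨a - 1, by omega⟩
      simp only [Nat.add_sub_cancel]
      nlinarith
    omega
  have hval : nm (zt a b c t) = ((a : ℤ) + t * c) ^ 2 + 3 * ((a : ℤ) + t * c) * ((b : ℤ) + t * e) +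
      ((b : ℤ) + t * e) ^ 2 := rfl
  rw [hval]
  have ha' : (0 : ℤ) < a := by exact_mod_cast ha
  have hc' : (c : ℤ) ≤ a := by exact_mod_cast hc.le
  have hb' : (b : ℤ) ≤ a := by exact_mod_cast hb.le
  have he' : (e : ℤ) ≤ a := by exact_mod_cast hea
  have ht' : (t : ℤ) ≤ X := by exact_mod_cast ht
  have hc0 : (0 : ℤ) ≤ c := Int.natCast_nonneg _
  have hb0 : (0 : ℤ) ≤ b := Int.natCast_nonneg _
  have he0 : (0 : ℤ) ≤ e := Int.natCast_nonneg _
  have ht0 : (0 : ℤ) ≤ t := Int.natCast_nonneg _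
  have htc0 : (0 : ℤ) ≤ t * c := mul_nonneg ht0 hc0
  have hte0 : (0 : ℤ) ≤ t * e := mul_nonneg ht0 he0
  have htc : (t : ℤ) * c ≤ X * a := mul_le_mul ht' hc' hc0 (ht0.trans ht')
  have hte : (t : ℤ) * e ≤ X * a := mul_le_mul ht' he' he0 (ht0.trans ht')
  set x : ℤ := (a : ℤ) + t * c with hx
  set y : ℤ := (b : ℤ) + t * e with hy
  have hx1 : (a : ℤ) ≤ x := by linarith
  have hy0 : 0 ≤ y := by linarith
  have hx2 : x ≤ (X + 1) * a := by linarith
  have hy2 : y ≤ (X + 1) * a := by linarith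
  have hx0 : 0 ≤ x := by linarith
  constructor
  · have h1 : (a : ℤ) ^ 2 ≤ x ^ 2 := pow_le_pow_left₀ ha'.le hx1 2
    have h2 : 0 ≤ x * y := mul_nonneg hx0 hy0
    nlinarith [sq_nonneg y]
  · have h3 : x ^ 2 ≤ ((X + 1) * a) ^ 2 := pow_le_pow_left₀ hx0 hx2 2
    have h4 : y ^ 2 ≤ ((X + 1) * a) ^ 2 := pow_le_pow_left₀ hy0 hy2 2
    have h5 : x * y ≤ ((X + 1) * a) * ((X + 1) * a) := mul_le_mul hx2 hy2 hy0 (hx0.trans hx2)
    nlinarith

end Pool.Agent.Lib.MP_d57abb_nt.AP
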