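import Mathlib
import Pool.Agent.Lib.MP_d57abb_nt.AP.Base
import Pool.Agent.Lib.MP_d57abb_nt.AP.Frm
import Pool.Agent.Lib.MP_d57abb_nt.AP.Om
import Pool.Agent.Lib.MP_d57abb_nt.Plus

/-!
# JOB Elm: the frame attached to an element of the sifted family

PROOF.  Let `G = (w!)^E`, `e = (1 + b c) / a`, `a e = 1 + b c` (`a ∣ 1 + b c`), `z₀ = (a, b) = zt a b c 0`, `v = (c, e)`.  `a ≥ 2` is prime so `b c ≠ 0`, `b, c, e ≥ 1`, and `z₀`, `v` are totally positive (`TP_of_nonneg` in `Plus`), `dt z₀ v = a e - b c = 1`.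
`z₀ ≡ (1, B) (mod G)` (`a ≡ 1`, `b ≡ B`), `nm δ₀ ∣ w! ∣ G`, so `z₀ = ml δ₀ u` by `div_of_mod`; `u` is totally positive (`pp_ml`, `qq_ml`, `z₀` and `δ₀` are).  `frame_of_propX` (with `c := 2 * cc`, `P.prop cc`) gives `t, d, u', u''` with `ml (dl d) u' = z₀ + t • v = zt a b c t`, `ml (dl d) u'' = zt a b c (t + d)`.
For `s ∈ {t, t + d}`, `s ≤ X`, `n = nm (zt a b c s) > 0`: for a prime `q ≤ w`, `q^E ∤ n` by `small_val`: `zt a b c s ≡ (1, B + s) (mod G)`, since `c ≡ 0 (mod G)` and `e ≡ a e = 1 + b c ≡ 1 (mod G)`; and `nm (1, B + s) ≤ nm (1, B + X) < 2^E`.  For a prime `q` in `(w, z]`: `q ∤ n` by the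
definition of `Sift`.  So `omega_le` and `size`: `Ω n ≤ w E + log (5 (X+1)² a²) / log z`, and `nm u' = n / d` divides `n` (`nm_ml`, `nm (dl d) = d`), so `Ω (nm u') ≤ Ω n` (`ArithmeticFunction.cardFactors` is monotone for divisibility: `cardFactors_mul`) and
`nm u' ≤ n ≤ 5 (X+1)² a²`.
-/

open Finset

namespace Pool.Agent.Lib.MP_d57abb_nt.AP

open Pool.Agent.Lib.MP_d57abb_nt Pool.Agent.Lib.MP_d57abb_nt.All

private theorem elm_zt (a b c t : ℕ) : zt a b c t =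
    ((a : ℤ), (b : ℤ)) + (t : ℤ) • ((c : ℤ), (((1 + b * c) / a : ℕ) : ℤ)) := by
  unfold zt
  ext <;> simp

private theorem elm_om {X B w E a b c z : ℕ} (hE : nm (1, ((B + X : ℕ) : ℤ)) < 2 ^ E)
    (hz : 2 ≤ z) (ha0 : 0 < a) (hb : b < a) (hc : c < a)
    (hdvd : a ∣ 1 + b * c) (ha1 : ((w.factorial ^ E : ℕ) : ℤ) ∣ (a : ℤ) - 1)
    (hb1 : ((w.factorial ^ E : ℕ) : ℤ) ∣ (b : ℤ) - B) (hc1 : ((w.factorial ^ E : ℕ) : ℤ) ∣ (c : ℤ))
    (hs : ∀ q ∈ Pz z, w < q → ∀ t ∈ range (X + 1), ¬ (q : ℤ) ∣ nm (zt a b c t))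
    (s : ℕ) (hsX : s ≤ X) (d : ℕ) (hd : 0 < d) (u : ℤ × ℤ) (hm : nm (zt a b c s) = d * nm u) :
    nm u ≤ 5 * ((X : ℤ) + 1) ^ 2 * (a : ℤ) ^ 2 ∧
      (ArithmeticFunction.cardFactors (nm u).natAbs : ℝ) ≤
        w * E + Real.log (5 * ((X : ℝ) + 1) ^ 2 * (a : ℝ) ^ 2) / Real.log z := by
  obtain ⟨h1, h2⟩ := size a b c s X hb hc hsX
  have ha2 : (0 : ℤ) < (a : ℤ) ^ 2 := by positivity
  have hn0 : 0 < nm (zt a b c s) := lt_of_lt_of_le ha2 h1
  have hd0 : (0 : ℤ) < d := by exact_mod_cast hd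
  have hu0 : 0 < nm u := by
    rw [hm] at hn0
    exact (mul_pos_iff_of_pos_left hd0).1 hn0
  have hle : nm u ≤ nm (zt a b c s) := by
    rw [hm]
    nlinarith
  refine ⟨hle.trans h2, ?_⟩
  set n : ℕ := (nm (zt a b c s)).natAbs with hn
  have hnn : (n : ℤ) = nm (zt a b c s) := Int.natAbs_of_nonneg hn0.le
  have hmul : n = d * (nm u).natAbs := by
    rw [hn, hm, Int.natAbs_mul, Int.natAbs_natCast]
  have hnpos : 0 < n := by
    rw [hn]
    exact Int.natAbs_pos.2 hn0.ne'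
  have hu1 : (nm u).natAbs ≠ 0 := (Int.natAbs_pos.2 hu0.ne').ne'
  have hOm : ArithmeticFunction.cardFactors (nm u).natAbs ≤ ArithmeticFunction.cardFactors n := by
    rw [hmul, ArithmeticFunction.cardFactors_mul hd.ne' hu1]
    exact Nat.le_add_left _ _
  -- the two conditions
  obtain ⟨e, he⟩ := hdvd
  have hediv : (1 + b * c) / a = e := by
    rw [he]
    exact Nat.mul_div_cancel_left e ha0
  have heZ : (1 : ℤ) + b * c = a * e := by exact_mod_cast he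
  have he1 : ((w.factorial ^ E : ℕ) : ℤ) ∣ (e : ℤ) - 1 := by
    have e1 : (e : ℤ) - 1 = b * c - (a - 1) * e := by linear_combination -heZ
    rw [e1]
    exact dvd_sub (Dvd.dvd.mul_left hc1 _) (Dvd.dvd.mul_right ha1 _)
  have hz1 : ((w.factorial ^ E : ℕ) : ℤ) ∣ (zt a b c s).1 - 1 := by
    have e1 : (zt a b c s).1 - 1 = ((a : ℤ) - 1) + s * c := by
      unfold zt
      ring
    rw [e1]
    exact dvd_add ha1 (Dvd.dvd.mul_left hc1 _)
  have hz2 : ((w.factorial ^ E : ℕ) : ℤ) ∣ (zt a b c s).2 - ((B + s : ℕ) : ℤ) := by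
    have e1 : (zt a b c s).2 - ((B + s : ℕ) : ℤ) = ((b : ℤ) - B) + s * (e - 1) := by
      unfold zt
      rw [hediv]
      push_cast
      ring
    rw [e1]
    exact dvd_add hb1 (Dvd.dvd.mul_left he1 _)
  have hEs : nm (1, ((B + s : ℕ) : ℤ)) < 2 ^ E := by
    refine lt_of_le_of_lt ?_ hE
    unfold nm
    simp only
    have h3 : ((B + s : ℕ) : ℤ) ≤ ((B + X : ℕ) : ℤ) := by exact_mod_cast (by omega : B + s ≤ B + X)
    have h4 : (0 : ℤ) ≤ ((B + s : ℕ) : ℤ) := Int.natCast_nonneg _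
    nlinarith
  have hA : ∀ q : ℕ, q.Prime → q ≤ w → ¬ q ^ E ∣ n := by
    intro q hq hqw hdv
    refine small_val w E B s q hq hqw hEs (zt a b c s) hz1 hz2 ?_
    exact Int.natCast_dvd.2 hdv
  have hB : ∀ q : ℕ, q.Prime → w < q → q ≤ z → ¬ q ∣ n := by
    intro q hq hwq hqz hdv
    refine hs q ?_ hwq s (mem_range.2 (by omega)) (Int.natCast_dvd.2 hdv)
    simp only [Pz, mem_filter, mem_Icc]
    exact ⟨⟨hq.one_lt.le, hqz⟩, hq⟩
  have h5 := omega_le n hnpos w E z hz hA hB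
  have hlz : 0 < Real.log z := Real.log_pos (by exact_mod_cast (by omega : 1 < z))
  have h6 : (n : ℝ) ≤ 5 * ((X : ℝ) + 1) ^ 2 * (a : ℝ) ^ 2 := by
    have h7 : (n : ℤ) ≤ 5 * ((X : ℤ) + 1) ^ 2 * (a : ℤ) ^ 2 := by
      rw [hnn]
      exact h2
    exact_mod_cast h7
  have h8 : Real.log n ≤ Real.log (5 * ((X : ℝ) + 1) ^ 2 * (a : ℝ) ^ 2) :=
    Real.log_le_log (by exact_mod_cast hnpos) h6
  have h9 : Real.log n / Real.log z ≤ Real.log (5 * ((X : ℝ) + 1) ^ 2 * (a : ℝ) ^ 2) / Real.log z :=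
    div_le_div_of_nonneg_right h8 hlz.le
  have h10 : (ArithmeticFunction.cardFactors (nm u).natAbs : ℝ) ≤ ArithmeticFunction.cardFactors n := by
    exact_mod_cast hOm
  linarith

theorem elem_data {m : ℕ} {h : ℕ → ZMod m} {X : ℕ} {δ₀ u₀ : ℤ × ℤ} {dl co : ℕ → ℤ × ℤ} {B w E : ℕ}
    (P : Par h X δ₀ u₀ dl co B w E) (cc : ZMod m) (a b c z : ℕ) (ha : a.Prime)
    (ha1 : a ≡ 1 [MOD w.factorial ^ E]) (hz : 2 ≤ z) (hx : (b, c) ∈ Sift a (w.factorial ^ E) B X w z) :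
    ∃ (t d : ℕ) (u' u'' : ℤ × ℤ), Spl d ∧ t + d ≤ X ∧ TP u' ∧ TP u'' ∧ dt u' u'' = 1 ∧
      ml (dl d) u' = zt a b c t ∧ ml (dl d) u'' = zt a b c (t + d) ∧ lam h u' + lam h u'' = 2 * cc ∧
      nm u' ≤ 5 * ((X : ℤ) + 1) ^ 2 * (a : ℤ) ^ 2 ∧ nm u'' ≤ 5 * ((X : ℤ) + 1) ^ 2 * (a : ℤ) ^ 2 ∧
      (ArithmeticFunction.cardFactors (nm u').natAbs : ℝ) ≤
        w * E + Real.log (5 * ((X : ℝ) + 1) ^ 2 * (a : ℝ) ^ 2) / Real.log z ∧
      (ArithmeticFunction.cardFactors (nm u'').natAbs : ℝ) ≤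
        w * E + Real.log (5 * ((X : ℝ) + 1) ^ 2 * (a : ℝ) ^ 2) / Real.log z := by
  have hx' := hx
  simp only [Sift, Fam, mem_filter, mem_product, mem_range] at hx'
  obtain ⟨⟨⟨hb, hc⟩, hdvd, hbB, hc0⟩, hsv⟩ := hx'
  have ha0 : 0 < a := ha.pos
  have ha1' : ((w.factorial ^ E : ℕ) : ℤ) ∣ (a : ℤ) - 1 := by
    have := (Nat.modEq_iff_dvd.1 ha1.symm)
    push_cast at this ⊢
    exact this
  have hb1 : ((w.factorial ^ E : ℕ) : ℤ) ∣ (b : ℤ) - B := Nat.modEq_iff_dvd.1 hbB.symm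
  have hc1 : ((w.factorial ^ E : ℕ) : ℤ) ∣ (c : ℤ) := by
    have := Nat.modEq_iff_dvd.1 hc0.symm
    rwa [Nat.cast_zero, sub_zero] at this
  obtain ⟨e, he⟩ := hdvd
  have hediv : (1 + b * c) / a = e := by
    rw [he]
    exact Nat.mul_div_cancel_left e ha0
  have heZ : (1 : ℤ) + b * c = a * e := by exact_mod_cast he
  have he0 : 0 < e := by
    rcases Nat.eq_zero_or_pos e with h0 | h0
    · rw [h0] at he
      omega
    · exact h0
  have hbc : b * c ≠ 0 := by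
    intro h0
    rw [h0] at he
    have h1 : a ∣ 1 := ⟨e, by omega⟩
    exact ha.one_lt.ne' (Nat.dvd_one.1 h1)
  have hb0 : 0 < b := Nat.pos_of_ne_zero fun h0 => hbc (by rw [h0, zero_mul])
  have hc00 : 0 < c := Nat.pos_of_ne_zero fun h0 => hbc (by rw [h0, mul_zero])
  have hTz : TP ((a : ℤ), (b : ℤ)) := TP_of_nonneg (by positivity) (by positivity) (by positivity)
  have hTv : TP ((c : ℤ), (e : ℤ)) := TP_of_nonneg (by positivity) (by positivity) (by positivity)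
  have hG : nm δ₀ ∣ ((w.factorial ^ E : ℕ) : ℤ) := by
    refine P.hM.trans ?_
    exact_mod_cast dvd_pow_self w.factorial (by have := P.E1; omega)
  obtain ⟨u, hu⟩ := div_of_mod δ₀ B u₀ P.base (w.factorial ^ E) hG ((a : ℤ), (b : ℤ)) ha1' hb1
  have hTu : TP u := by
    rw [← hu] at hTz
    constructor
    · have := hTz.1
      rw [pp_ml] at this
      exact (mul_pos_iff_of_pos_left P.tp.1).1 this
    · have := hTz.2
      rw [qq_ml] at this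
      exact (mul_pos_iff_of_pos_left P.tp.2).1 this
  have hdt : dt (ml δ₀ u) ((c : ℤ), (e : ℤ)) = 1 := by
    rw [hu]
    unfold dt
    simp only
    linear_combination -heZ
  obtain ⟨t, d, u', u'', hS, htd, hTu', hTu'', hdd, hm1, hm2, hlam⟩ :=
    frame_of_propX P.add (P.prop cc) P.tp P.sys hTu hTv hdt
  rw [hu] at hm1 hm2
  have hz1 : ml (dl d) u' = zt a b c t := by rw [elm_zt, hediv, hm1]
  have hz2 : ml (dl d) u'' = zt a b c (t + d) := by rw [elm_zt, hediv, hm2]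
  obtain ⟨-, hnd, -, -⟩ := P.sys d hS (by omega)
  have hn1 : nm (zt a b c t) = d * nm u' := by rw [← hz1, nm_ml, hnd]
  have hn2 : nm (zt a b c (t + d)) = d * nm u'' := by rw [← hz2, nm_ml, hnd]
  obtain ⟨k1, k2⟩ := elm_om P.hE hz ha0 hb hc ⟨e, he⟩ ha1' hb1 hc1
    (fun q hq hwq t ht => hsv q hq hwq t (mem_range.1 ht)) t (by omega) d hS.1 u' hn1
  obtain ⟨k3, k4⟩ := elm_om P.hE hz ha0 hb hc ⟨e, he⟩ ha1' hb1 hc1
    (fun q hq hwq t ht => hsv q hq hwq t (mem_range.1 ht)) (t + d) htd d hS.1 u'' hn2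
  exact ⟨t, d, u', u'', hS, htd, hTu', hTu'', hdd, hz1, hz2, hlam, k1, k3, k2, k4⟩

end Pool.Agent.Lib.MP_d57abb_nt.AP
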