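import Mathlib
import Pool.Agent.Lib.MP_d57abb_nt.AP.Defs
import Pool.Agent.Lib.MP_d57abb_nt.Uniq
import Pool.Agent.Lib.MP_d57abb_nt.Plus

/-!
# JOB Mul: the vectors are determined by the value

PROOF of `line_unique`.  `ml (dl) u₁' = z_t` and `ml (dl) u₂' = z_t'`, where the coordinates of `z_t, z_t'` are: first `≥ 1`, second `≥ 0`, so `an z_t, an z_t' ∈ [0, 2 log al)` (`an_range` in `Plus`) and `an u₁' = an z_t - an δ`, `an u₂' = an z_t' - an δ` (`an_ml`), so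
`|an u₁' - an u₂'| < 2 log al`.  `uniq` (`Uniq.lean`) gives `u₁' = u₂'`.  Then `u₁'' = u₂''`: by `pp_mul_qq'` and `qq_mul_pp'` (`pp v * qq w` and `qq v * pp w` are functions of `kk v w` and `dt v w`) `qq u₁'' = qq u₂''`, `pp u₁'' = pp u₂''`, and `ext_of`.
Hence `z₀ + t v = z₀' + t v'` and `z₀ + (t + d) v = z₀' + (t + d) v'`, so `d v = d v'`, `v = v'` (`d > 0`), `z₀ = z₀'`.
-/

open Finset

namespace Pool.Agent.Lib.MP_d57abb_nt.AP

open Pool.Agent.Lib.MP_d57abb_nt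

theorem line_unique {δ u₁' u₁'' u₂' u₂'' z₀ v z₀' v' : ℤ × ℤ} {t d : ℕ} (hd : 0 < d) (hδ : TP δ)
    (h1 : TP u₁') (h2 : TP u₁'') (h3 : TP u₂') (h4 : TP u₂'') (e1 : dt u₁' u₁'' = 1) (e2 : dt u₂' u₂'' = 1)
    (hk : kk u₁' u₁'' = kk u₂' u₂'') (hn : nm u₁' = nm u₂')
    (a1 : ml δ u₁' = z₀ + (t : ℤ) • v) (a2 : ml δ u₁'' = z₀ + ((t + d : ℕ) : ℤ) • v)
    (b1 : ml δ u₂' = z₀' + (t : ℤ) • v') (b2 : ml δ u₂'' = z₀' + ((t + d : ℕ) : ℤ) • v')
    (p1 : 1 ≤ z₀.1) (p2 : 0 ≤ z₀.2) (p3 : 0 ≤ v.1) (p4 : 0 ≤ v.2) (q1 : 1 ≤ z₀'.1) (q2 : 0 ≤ z₀'.2)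
    (q3 : 0 ≤ v'.1) (q4 : 0 ≤ v'.2) : z₀ = z₀' ∧ v = v' := by
  have hr1 : 0 ≤ an (ml δ u₁') ∧ an (ml δ u₁') < 2 * Real.log al := by
    refine an_range ?_ ?_
    · rw [a1]
      simp only [Prod.fst_add, Prod.smul_fst, smul_eq_mul]
      have : 0 ≤ (t : ℤ) * v.1 := mul_nonneg (Int.natCast_nonneg _) p3
      linarith
    · rw [a1]
      simp only [Prod.snd_add, Prod.smul_snd, smul_eq_mul]
      have : 0 ≤ (t : ℤ) * v.2 := mul_nonneg (Int.natCast_nonneg _) p4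
      linarith
  have hr2 : 0 ≤ an (ml δ u₂') ∧ an (ml δ u₂') < 2 * Real.log al := by
    refine an_range ?_ ?_
    · rw [b1]
      simp only [Prod.fst_add, Prod.smul_fst, smul_eq_mul]
      have : 0 ≤ (t : ℤ) * v'.1 := mul_nonneg (Int.natCast_nonneg _) q3
      linarith
    · rw [b1]
      simp only [Prod.snd_add, Prod.smul_snd, smul_eq_mul]
      have : 0 ≤ (t : ℤ) * v'.2 := mul_nonneg (Int.natCast_nonneg _) q4
      linarith
  rw [an_ml hδ h1] at hr1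
  rw [an_ml hδ h3] at hr2
  have hu1 : u₁' = u₂' := by
    refine uniq h1 h2 h3 h4 e1 e2 hk hn ?_
    rw [abs_lt]
    constructor
    · linarith [hr1.1, hr2.2]
    · linarith [hr1.2, hr2.1]
  subst hu1
  have hu2 : u₁'' = u₂'' := by
    have f1 : pp u₁' * qq u₁'' = pp u₁' * qq u₂'' := by
      rw [pp_mul_qq', pp_mul_qq', e1, e2, hk]
    have f2 : qq u₁' * pp u₁'' = qq u₁' * pp u₂'' := by
      rw [qq_mul_pp', qq_mul_pp', e1, e2, hk]
    exact ext_of (mul_left_cancel₀ h1.2.ne' f2) (mul_left_cancel₀ h1.1.ne' f1)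
  subst hu2
  have g1 : z₀ + (t : ℤ) • v = z₀' + (t : ℤ) • v' := by rw [← a1, ← b1]
  have g2 : z₀ + ((t + d : ℕ) : ℤ) • v = z₀' + ((t + d : ℕ) : ℤ) • v' := by rw [← a2, ← b2]
  have g11 := congrArg Prod.fst g1
  have g12 := congrArg Prod.snd g1
  have g21 := congrArg Prod.fst g2
  have g22 := congrArg Prod.snd g2
  simp only [Prod.fst_add, Prod.smul_fst, Prod.snd_add, Prod.smul_snd, smul_eq_mul,
    Nat.cast_add] at g11 g12 g21 g22
  have hd' : (d : ℤ) ≠ 0 := by exact_mod_cast hd.ne'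
  have k1 : v.1 = v'.1 := by
    apply mul_left_cancel₀ hd'
    linear_combination g21 - g11
  have k2 : v.2 = v'.2 := by
    apply mul_left_cancel₀ hd'
    linear_combination g22 - g12
  have hv : v = v' := Prod.ext k1 k2
  refine ⟨?_, hv⟩
  rw [hv] at g1
  exact add_right_cancel g1

end Pool.Agent.Lib.MP_d57abb_nt.AP
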