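import Mathlib
import Pool.Agent.Lib.MP_d57abb_nt.AP.Elm
import Pool.Agent.Lib.MP_d57abb_nt.AP.Mul

/-!
# JOB Cou: counting

PROOF of `card_divisors_le`: `d(n) ≤ 2^Ω(n)` for `n > 0` (`∏ (v_q + 1) ≤ ∏ 2^(v_q)`: `Nat.card_divisors` / `Nat.Coprime.card_divisors_mul` and induction, or induction on `n` with `dv_mul_le` in `Three/Mom`).
PROOF of `SS_le`.  To `(a, (b, c)) ∈ SS` attach, with the data of `elem_data`, the element `((k, n₁), t, d)`, `k = kk u' u''`, `n₁ = nm u'` (natural numbers: `kk_nonneg`, positivity), of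
`(FC h (2 * cc) C N).sigma (fun k => (k² + 3k + 1).divisors) ×ˢ (range (X+1) ×ˢ range (X+1))`, `N = 5 (X+1)² A²`: `kk_eq` (`k² + 3 k + 1 = nm u' * nm u''`), `h (k² + 3k + 1) = lam h u' + lam h u'' = 2 * cc` (additivity), `Ω (k² + 3 k + 1) = Ω (nm u') + Ω (nm u'') ≤ C` by `hC` (`a ≤ A`, monotonicity of `log`),
`k ≤ N` by `kk_le`, and `k ≥ 1`: if `k = 0` then `nm u' = nm u'' = 1`, `nm (zt a b c t) = d ≤ X`, but `nm (zt ..) ≥ a²` (`size`) `> X` (`a > A / 2`, `hA`).  By `line_unique` (with `z₀ = (a, b)`, `v = (c, e)`, and `zt a b c t = z₀ + t • v`; `Spl d` gives `d > 0`; `TP (dl d)` from `P.sys`)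
two elements of `SS` with the same datum are equal.  So `|SS| ≤ ∑_{k ∈ FC} d(k² + 3k + 1) (X+1)² ≤ |FC| 2^C (X+1)²` (`Finset.card_le_card_of_forall_subsingleton`, see `card_AQ_le` in `Three/Num` and `All/NumA`).
-/

open Finset

namespace Pool.Agent.Lib.MP_d57abb_nt.AP

open Pool.Agent.Lib.MP_d57abb_nt Pool.Agent.Lib.MP_d57abb_nt.All

private theorem cou_step (p a : ℕ) (hp : p.Prime) (ha : 0 < a) :
    (p * a).divisors.card ≤ 2 * a.divisors.card := by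
  have h1 : (p * a).divisors ⊆ a.divisors ∪ a.divisors.image (fun x => p * x) := by
    intro d hd
    rw [Nat.mem_divisors] at hd
    rw [mem_union, mem_image]
    by_cases hpd : p ∣ d
    · obtain ⟨e, rfl⟩ := hpd
      right
      exact ⟨e, Nat.mem_divisors.2 ⟨Nat.dvd_of_mul_dvd_mul_left hp.pos hd.1, ha.ne'⟩, rfl⟩
    · left
      have hc : Nat.Coprime d p := ((Nat.Prime.coprime_iff_not_dvd hp).2 hpd).symm
      exact Nat.mem_divisors.2 ⟨hc.dvd_of_dvd_mul_left hd.1, ha.ne'⟩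
  calc (p * a).divisors.card ≤ (a.divisors ∪ a.divisors.image (fun x => p * x)).card := card_le_card h1
    _ ≤ a.divisors.card + (a.divisors.image (fun x => p * x)).card := card_union_le _ _
    _ ≤ a.divisors.card + a.divisors.card := Nat.add_le_add_left card_image_le _
    _ = 2 * a.divisors.card := (two_mul _).symm

theorem card_divisors_le (n : ℕ) (hn : 0 < n) : n.divisors.card ≤ 2 ^ ArithmeticFunction.cardFactors n := by
  induction n using induction_on_primes with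
  | zero => exact absurd hn (lt_irrefl 0)
  | one => simp
  | prime_mul p a hp ih =>
    have ha : 0 < a := Nat.pos_of_mul_pos_left hn
    rw [ArithmeticFunction.cardFactors_mul hp.ne_zero ha.ne',
      ArithmeticFunction.cardFactors_apply_prime hp, pow_add, pow_one]
    exact (cou_step p a hp ha).trans (Nat.mul_le_mul_left 2 (ih ha))

/-- the relation between an element of the sifted family and its datum -/
private def cou_R (dl : ℕ → ℤ × ℤ) (x : Σ _ : ℕ, ℕ × ℕ) (y : (Σ _ : ℕ, ℕ) × (ℕ × ℕ)) : Prop :=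
  ∃ u' u'' : ℤ × ℤ, Spl y.2.2 ∧ TP u' ∧ TP u'' ∧ dt u' u'' = 1 ∧
    ml (dl y.2.2) u' = zt x.1 x.2.1 x.2.2 y.2.1 ∧
    ml (dl y.2.2) u'' = zt x.1 x.2.1 x.2.2 (y.2.1 + y.2.2) ∧
    kk u' u'' = (y.1.1 : ℤ) ∧ nm u' = (y.1.2 : ℤ)

private theorem cou_zt (a b c t : ℕ) : zt a b c t =
    ((a : ℤ), (b : ℤ)) + (t : ℤ) • ((c : ℤ), (((1 + b * c) / a : ℕ) : ℤ)) := by
  unfold zt
  ext
  · simp
  · simp

private theorem cou_uniq {m : ℕ} {h : ℕ → ZMod m} {X : ℕ} {δ₀ u₀ : ℤ × ℤ} {dl co : ℕ → ℤ × ℤ}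
    {B w E : ℕ} (P : Par h X δ₀ u₀ dl co B w E) {x x' : Σ _ : ℕ, ℕ × ℕ}
    {y : (Σ _ : ℕ, ℕ) × (ℕ × ℕ)} (hy : y.2.2 ≤ X) (hx : 0 < x.1) (hx' : 0 < x'.1)
    (h1 : cou_R dl x y) (h2 : cou_R dl x' y) : x = x' := by
  obtain ⟨a, b, c⟩ := x
  obtain ⟨a', b', c'⟩ := x'
  obtain ⟨⟨k, n⟩, t, d⟩ := y
  obtain ⟨u₁, v₁, hs, p1, p2, p3, p4, p5, p6, p7⟩ := h1
  obtain ⟨u₂, v₂, _, q1, q2, q3, q4, q5, q6, q7⟩ := h2
  have hd := (P.sys d hs hy).1
  simp only at p4 p5 p6 p7 q4 q5 q6 q7 hx hx'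
  rw [cou_zt] at p4 p5 q4 q5
  have hk : kk u₁ v₁ = kk u₂ v₂ := p6.trans q6.symm
  have hn : nm u₁ = nm u₂ := p7.trans q7.symm
  have key := line_unique hs.1 hd p1 p2 q1 q2 p3 q3 hk hn p4 p5 q4 q5
    (by show (1 : ℤ) ≤ (a : ℤ); exact_mod_cast hx) (by show (0 : ℤ) ≤ (b : ℤ); positivity)
    (by show (0 : ℤ) ≤ (c : ℤ); positivity)
    (by show (0 : ℤ) ≤ (((1 + b * c) / a : ℕ) : ℤ); exact Int.natCast_nonneg _)
    (by show (1 : ℤ) ≤ (a' : ℤ); exact_mod_cast hx') (by show (0 : ℤ) ≤ (b' : ℤ); positivity)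
    (by show (0 : ℤ) ≤ (c' : ℤ); positivity)
    (by show (0 : ℤ) ≤ (((1 + b' * c') / a' : ℕ) : ℤ); exact Int.natCast_nonneg _)
  have e1 : (a : ℤ) = a' := congrArg Prod.fst key.1
  have e2 : (b : ℤ) = b' := congrArg Prod.snd key.1
  have e3 : (c : ℤ) = c' := congrArg Prod.fst key.2
  have e1' : a = a' := by exact_mod_cast e1
  have e2' : b = b' := by exact_mod_cast e2
  have e3' : c = c' := by exact_mod_cast e3
  rw [e1', e2', e3']

private theorem cou_filt {α : Type*} {p : α → Prop} {inst : DecidablePred p} {s : Finset α} {x : α}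
    (h : x ∈ @Finset.filter α p inst s) : x ∈ s := (mem_filter.1 h).1

private theorem cou_ex {m : ℕ} {h : ℕ → ZMod m} {X : ℕ} {δ₀ u₀ : ℤ × ℤ} {dl co : ℕ → ℤ × ℤ}
    {B w E : ℕ} (P : Par h X δ₀ u₀ dl co B w E) (cc : ZMod m) (A z C : ℕ) (hA : 2 * (X + 2) ≤ A)
    (hz : 2 ≤ z)
    (hC : 2 * ((w : ℝ) * E + Real.log (5 * ((X : ℝ) + 1) ^ 2 * (A : ℝ) ^ 2) / Real.log z) ≤ C)
    {x : Σ _ : ℕ, ℕ × ℕ} (hx : x ∈ SS A (w.factorial ^ E) B X w z) :
    ∃ y ∈ ((FC h (2 * cc) C (5 * (X + 1) ^ 2 * A ^ 2)).sigma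
      (fun k => (k ^ 2 + 3 * k + 1).divisors)) ×ˢ (range (X + 1) ×ˢ range (X + 1)),
      cou_R dl x y := by
  obtain ⟨a, b, c⟩ := x
  unfold SS at hx
  rw [mem_sigma, mem_filter, mem_Ioc] at hx
  obtain ⟨⟨⟨haA, haA'⟩, hap, ha1⟩, hbc⟩ := hx
  simp only at haA haA' hap ha1 hbc
  obtain ⟨t, d, u', u'', hS, htd, hu', hu'', hdt, e1, e2, hlam, hn1, hn2, hO1, hO2⟩ :=
    elem_data P cc a b c z hap ha1 hz hbc
  have hfam : (b, c) ∈ Fam a (w.factorial ^ E) B := cou_filt hbc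
  have hbc' := (mem_filter.1 hfam).1
  rw [mem_product, mem_range, mem_range] at hbc'
  obtain ⟨hb, hc⟩ := hbc'
  simp only at hb hc
  have ha0 : 0 < a := hap.pos
  have haX : X + 2 < a := by omega
  -- sizes
  have haAZ : (a : ℤ) ≤ (A : ℤ) := by exact_mod_cast haA'
  have ha0Z : (0 : ℤ) ≤ (a : ℤ) := Int.natCast_nonneg _
  have hsq : (a : ℤ) ^ 2 ≤ (A : ℤ) ^ 2 := pow_le_pow_left₀ ha0Z haAZ 2
  have hX0 : (0 : ℤ) ≤ 5 * ((X : ℤ) + 1) ^ 2 := by positivity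
  have hN : 5 * ((X : ℤ) + 1) ^ 2 * (a : ℤ) ^ 2 ≤ 5 * ((X : ℤ) + 1) ^ 2 * (A : ℤ) ^ 2 :=
    mul_le_mul_of_nonneg_left hsq hX0
  have hn1' : nm u' ≤ 5 * ((X : ℤ) + 1) ^ 2 * (A : ℤ) ^ 2 := hn1.trans hN
  have hn2' : nm u'' ≤ 5 * ((X : ℤ) + 1) ^ 2 * (A : ℤ) ^ 2 := hn2.trans hN
  have hp1 := hu'.nm_pos
  have hp2 := hu''.nm_pos
  have hkn := kk_nonneg hu' hu'' hdt
  have hke := kk_eq hdt
  obtain ⟨k, hk⟩ := Int.eq_ofNat_of_zero_le hkn
  obtain ⟨n₁, hn₁⟩ := Int.eq_ofNat_of_zero_le hp1.le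
  obtain ⟨n₂, hn₂⟩ := Int.eq_ofNat_of_zero_le hp2.le
  have h1pos : 0 < n₁ := by
    rw [hn₁] at hp1
    exact_mod_cast hp1
  have h2pos : 0 < n₂ := by
    rw [hn₂] at hp2
    exact_mod_cast hp2
  have hprod : k ^ 2 + 3 * k + 1 = n₁ * n₂ := by
    rw [hk, hn₁, hn₂] at hke
    exact_mod_cast hke
  have hl1 : lam h u' = h n₁ := by
    unfold lam
    rw [hn₁]
    rfl
  have hl2 : lam h u'' = h n₂ := by
    unfold lam
    rw [hn₂]
    rfl
  have hlog : 0 < Real.log z := Real.log_pos (by exact_mod_cast hz)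
  have hA0 : (0 : ℝ) < (a : ℝ) := by exact_mod_cast ha0
  have hAA : (a : ℝ) ≤ (A : ℝ) := by exact_mod_cast haA'
  have hmono : Real.log (5 * ((X : ℝ) + 1) ^ 2 * (a : ℝ) ^ 2) / Real.log z ≤
      Real.log (5 * ((X : ℝ) + 1) ^ 2 * (A : ℝ) ^ 2) / Real.log z := by
    refine div_le_div_of_nonneg_right ?_ hlog.le
    refine Real.log_le_log (by positivity) ?_
    exact mul_le_mul_of_nonneg_left (pow_le_pow_left₀ hA0.le hAA 2) (by positivity)
  have hna1 : (nm u').natAbs = n₁ := by rw [hn₁]; rfl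
  have hna2 : (nm u'').natAbs = n₂ := by rw [hn₂]; rfl
  rw [hna1] at hO1
  rw [hna2] at hO2
  have hOm : ArithmeticFunction.cardFactors (k ^ 2 + 3 * k + 1) ≤ C := by
    rw [hprod, ArithmeticFunction.cardFactors_mul h1pos.ne' h2pos.ne']
    have h3 : ((ArithmeticFunction.cardFactors n₁ + ArithmeticFunction.cardFactors n₂ : ℕ) : ℝ) ≤
        (C : ℝ) := by
      push_cast
      linarith
    exact_mod_cast h3
  have hkN : k ≤ 5 * (X + 1) ^ 2 * A ^ 2 := by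
    have hr1 : (nm u' : ℝ) ≤ 5 * ((X : ℝ) + 1) ^ 2 * (A : ℝ) ^ 2 := by exact_mod_cast hn1'
    have hr2 : (nm u'' : ℝ) ≤ 5 * ((X : ℝ) + 1) ^ 2 * (A : ℝ) ^ 2 := by exact_mod_cast hn2'
    have h3 := kk_le hu' hu'' hdt (X := 5 * ((X : ℝ) + 1) ^ 2 * (A : ℝ) ^ 2) (by positivity) hr1 hr2
    rw [hk] at h3
    have h4 : ((k : ℕ) : ℝ) ≤ 5 * ((X : ℝ) + 1) ^ 2 * (A : ℝ) ^ 2 := by
      exact_mod_cast h3
    exact_mod_cast h4
  have hk1 : 1 ≤ k := by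
    by_contra hk0
    have hk0' : k = 0 := by omega
    rw [hk0'] at hprod
    have h3 : n₁ * n₂ = 1 := by omega
    have h4 : n₁ = 1 := Nat.eq_one_of_mul_eq_one_right h3
    have hdX : d ≤ X := by omega
    have h5 := (P.sys d hS hdX).2.1
    have h6 : nm (zt a b c t) = (d : ℤ) := by
      rw [← e1, nm_ml, h5, hn₁, h4]
      simp
    have h7 := (size a b c t X hb hc (by omega)).1
    rw [h6] at h7
    have h8 : (d : ℤ) ≤ (X : ℤ) := by exact_mod_cast hdX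
    have h9 : (X : ℤ) + 2 < (a : ℤ) := by exact_mod_cast haX
    nlinarith
  refine ⟨(⟨k, n₁⟩, (t, d)), ?_, ⟨u', u'', hS, hu', hu'', hdt, e1, e2, hk, hn₁⟩⟩
  rw [mem_product, mem_sigma, mem_product, mem_range, mem_range]
  refine ⟨⟨?_, ?_⟩, ?_, ?_⟩
  · show k ∈ FC h (2 * cc) C (5 * (X + 1) ^ 2 * A ^ 2)
    unfold FC
    rw [mem_filter, mem_Icc]
    refine ⟨⟨hk1, hkN⟩, ?_, hOm⟩
    rw [hprod, P.add n₁ n₂ h1pos h2pos, ← hl1, ← hl2]
    exact hlam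
  · show n₁ ∈ (k ^ 2 + 3 * k + 1).divisors
    rw [Nat.mem_divisors]
    exact ⟨⟨n₂, hprod⟩, by positivity⟩
  · show t < X + 1
    omega
  · show d < X + 1
    omega

theorem SS_le {m : ℕ} {h : ℕ → ZMod m} {X : ℕ} {δ₀ u₀ : ℤ × ℤ} {dl co : ℕ → ℤ × ℤ} {B w E : ℕ}
    (P : Par h X δ₀ u₀ dl co B w E) (cc : ZMod m) (A z C : ℕ) (hA : 2 * (X + 2) ≤ A) (hz : 2 ≤ z)
    (hC : 2 * ((w : ℝ) * E + Real.log (5 * ((X : ℝ) + 1) ^ 2 * (A : ℝ) ^ 2) / Real.log z) ≤ C) :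
    (SS A (w.factorial ^ E) B X w z).card ≤
      (FC h (2 * cc) C (5 * (X + 1) ^ 2 * A ^ 2)).card * (2 ^ C * (X + 1) ^ 2) := by
  have h1 : (SS A (w.factorial ^ E) B X w z).card ≤
      (((FC h (2 * cc) C (5 * (X + 1) ^ 2 * A ^ 2)).sigma
      (fun k => (k ^ 2 + 3 * k + 1).divisors)) ×ˢ (range (X + 1) ×ˢ range (X + 1))).card := by
    refine card_le_card_of_forall_subsingleton (cou_R dl)
      (fun x hx => cou_ex P cc A z C hA hz hC hx) ?_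
    intro y hy x hx x' hx'
    have hd : y.2.2 ≤ X := by
      rw [mem_product, mem_product, mem_range, mem_range] at hy
      omega
    have hpos : ∀ x ∈ SS A (w.factorial ^ E) B X w z, 0 < x.1 := by
      intro x hx
      unfold SS at hx
      rw [mem_sigma, mem_filter] at hx
      exact hx.1.2.1.pos
    exact cou_uniq P hd (hpos x hx.1) (hpos x' hx'.1) hx.2 hx'.2
  refine h1.trans ?_
  rw [card_product, card_product, card_range, card_sigma]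
  have h2 : ∑ k ∈ FC h (2 * cc) C (5 * (X + 1) ^ 2 * A ^ 2), (k ^ 2 + 3 * k + 1).divisors.card ≤
      (FC h (2 * cc) C (5 * (X + 1) ^ 2 * A ^ 2)).card * 2 ^ C := by
    rw [← smul_eq_mul]
    refine sum_le_card_nsmul _ _ _ ?_
    intro k hk
    unfold FC at hk
    rw [mem_filter] at hk
    exact (card_divisors_le _ (by positivity)).trans (Nat.pow_le_pow_right (by norm_num) hk.2.2)
  calc (∑ k ∈ FC h (2 * cc) C (5 * (X + 1) ^ 2 * A ^ 2), (k ^ 2 + 3 * k + 1).divisors.card) *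
        ((X + 1) * (X + 1))
      ≤ ((FC h (2 * cc) C (5 * (X + 1) ^ 2 * A ^ 2)).card * 2 ^ C) * ((X + 1) * (X + 1)) :=
        Nat.mul_le_mul_right _ h2
    _ = (FC h (2 * cc) C (5 * (X + 1) ^ 2 * A ^ 2)).card * (2 ^ C * (X + 1) ^ 2) := by ring

end Pool.Agent.Lib.MP_d57abb_nt.AP
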