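import Mathlib
import Pool.Agent.Lib.MP_d57abb_nt.All.SW

/-!
# JOB Pri: primes `≡ 1 (mod G)` in `(A/2, A]`

PROOF.  `sw 1 1` (`All/SW`) for `y = A` and `y = A / 2` (natural division), `M = G` (`G ≤ log (A/2)` for large `A`), `c = 1`: the sum of `lp n` over `n ∈ (A/2, A]`, `n ≡ 1 (mod G)` is at least `(A - A/2) / φ(G) - A / log A - (A/2) / log (A/2) ≥ A / (3 G)` for large
`A` (`φ(G) ≤ G`).  Every term is at most `log A`, and nonzero only for primes, so the number of primes is at least `A / (3 G log A) ≥ A / (log A)²` for large `A`.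
-/

open Finset Filter

namespace Pool.Agent.Lib.MP_d57abb_nt.AP

theorem primes_lower (G : ℕ) (hG : 0 < G) : ∃ A₀ : ℕ, ∀ A : ℕ, A₀ ≤ A →
    (A : ℝ) / Real.log A ^ 2 ≤ (((Ioc (A / 2) A).filter (fun a => a.Prime ∧ a ≡ 1 [MOD G])).card : ℝ) := by
  obtain ⟨y₀, hy⟩ := Pool.Agent.Lib.MP_d57abb_nt.All.sw 1 1
  refine ⟨2 * (max y₀ ⌈Real.exp (12 * G)⌉₊ + 1), fun A hA => ?_⟩
  have hG1 : (1 : ℝ) ≤ G := by exact_mod_cast hG
  set K := max y₀ ⌈Real.exp (12 * G)⌉₊ with hK
  have hKA : K ≤ A / 2 := by omega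
  have hYA : A / 2 ≤ A := Nat.div_le_self A 2
  set Y := A / 2 with hY
  have hy0Y : y₀ ≤ Y := (le_max_left _ _).trans hKA
  have hexp : Real.exp (12 * G) ≤ (Y : ℝ) := by
    have h1 : ⌈Real.exp (12 * G)⌉₊ ≤ Y := (le_max_right _ _).trans hKA
    exact (Nat.le_ceil _).trans (by exact_mod_cast h1)
  have hY0 : (0 : ℝ) < Y := (Real.exp_pos _).trans_le hexp
  have hA0 : (0 : ℝ) < A := hY0.trans_le (by exact_mod_cast hYA)
  have hlY : 12 * (G : ℝ) ≤ Real.log Y := (Real.le_log_iff_exp_le hY0).2 hexp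
  have hlA : Real.log Y ≤ Real.log A := Real.log_le_log hY0 (by exact_mod_cast hYA)
  have h2Y : (Y : ℝ) ≤ A / 2 := by
    have h1 : 2 * Y ≤ A := by omega
    have h2 : (2 : ℝ) * Y ≤ A := by exact_mod_cast h1
    linarith
  have h1 := hy A (hy0Y.trans hYA) G hG (by rw [pow_one]; linarith) 1 (Nat.coprime_one_left G)
  have h2 := hy Y hy0Y G hG (by rw [pow_one]; linarith) 1 (Nat.coprime_one_left G)
  rw [pow_one] at h1 h2
  have hsplit : ∑ n ∈ (Ioc 0 A).filter (fun n => n ≡ 1 [MOD G]), Pool.Agent.Lib.MP_d57abb_nt.All.lp n =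
      ∑ n ∈ (Ioc 0 Y).filter (fun n => n ≡ 1 [MOD G]), Pool.Agent.Lib.MP_d57abb_nt.All.lp n +
      ∑ n ∈ (Ioc Y A).filter (fun n => n ≡ 1 [MOD G]), Pool.Agent.Lib.MP_d57abb_nt.All.lp n := by
    rw [sum_filter, sum_filter, sum_filter]
    exact (sum_Ioc_consecutive _ (Nat.zero_le Y) hYA).symm
  have hup : ∑ n ∈ (Ioc Y A).filter (fun n => n ≡ 1 [MOD G]), Pool.Agent.Lib.MP_d57abb_nt.All.lp n ≤
      (((Ioc Y A).filter (fun a => a.Prime ∧ a ≡ 1 [MOD G])).card : ℝ) * Real.log A := by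
    have e1 : ∑ n ∈ (Ioc Y A).filter (fun n => n ≡ 1 [MOD G]), Pool.Agent.Lib.MP_d57abb_nt.All.lp n =
        ∑ n ∈ (Ioc Y A).filter (fun a => a.Prime ∧ a ≡ 1 [MOD G]), Real.log n := by
      rw [sum_filter, sum_filter]
      refine sum_congr rfl fun n _ => ?_
      unfold Pool.Agent.Lib.MP_d57abb_nt.All.lp
      by_cases h3 : n ≡ 1 [MOD G]
      · by_cases h4 : n.Prime
        · rw [if_pos h3, if_pos h4, if_pos ⟨h4, h3⟩]
        · rw [if_pos h3, if_neg h4, if_neg (fun h => h4 h.1)]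
      · rw [if_neg h3, if_neg (fun h => h3 h.2)]
    rw [e1, ← nsmul_eq_mul]
    refine sum_le_card_nsmul _ _ _ fun n hn => ?_
    have h5 := mem_filter.1 hn
    have h6 := mem_Ioc.1 h5.1
    exact Real.log_le_log (by exact_mod_cast h5.2.1.pos) (by exact_mod_cast h6.2)
  set N := (((Ioc Y A).filter (fun a => a.Prime ∧ a ≡ 1 [MOD G])).card : ℝ) with hN
  have hphi : (0 : ℝ) < (Nat.totient G : ℝ) := by exact_mod_cast Nat.totient_pos.2 hG
  have hphi2 : (Nat.totient G : ℝ) ≤ G := by exact_mod_cast Nat.totient_le G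
  have hlY0 : 0 < Real.log Y := by linarith
  have hlA0 : 0 < Real.log A := by linarith
  have h3 := (abs_le.1 h1).1
  have h4 := (abs_le.1 h2).2
  have h5 : (A : ℝ) / Real.log A ≤ A / (12 * G) := by
    refine div_le_div_of_nonneg_left hA0.le (by positivity) (by linarith)
  have h6 : (Y : ℝ) / Real.log Y ≤ A / (24 * G) := by
    calc (Y : ℝ) / Real.log Y ≤ (A / 2) / (12 * G) := by gcongr
      _ = A / (24 * G) := by
        field_simp
        ring
  have h7 : (A : ℝ) / 2 / G ≤ (A : ℝ) / (Nat.totient G : ℝ) - Y / (Nat.totient G : ℝ) := by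
    rw [← sub_div]
    have h8 : (A : ℝ) / 2 ≤ A - Y := by linarith
    calc (A : ℝ) / 2 / G ≤ (A : ℝ) / 2 / (Nat.totient G : ℝ) := by
          exact div_le_div_of_nonneg_left (by positivity) hphi hphi2
      _ ≤ (A - Y) / (Nat.totient G : ℝ) := by gcongr
  have h9 : (A : ℝ) / 3 / G ≤ N * Real.log A := by
    have e1 : (A : ℝ) / 2 / G - A / (12 * G) - A / (24 * G) = (9 / 8) * (A / 3 / G) := by
      field_simp
      ring
    have e2 : 0 ≤ (A : ℝ) / 3 / G := by positivity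
    linarith
  rw [div_le_iff₀ (by positivity)]
  have h10 : (A : ℝ) ≤ N * Real.log A * (3 * G) := by
    rw [div_div, div_le_iff₀ (by positivity)] at h9
    exact h9
  have h11 : 0 ≤ N * Real.log A := by
    have : 0 ≤ N := by rw [hN]; positivity
    positivity
  calc (A : ℝ) ≤ N * Real.log A * (3 * G) := h10
    _ ≤ N * Real.log A * Real.log A := by
      refine mul_le_mul_of_nonneg_left (by linarith) h11
    _ = N * Real.log A ^ 2 := by ring

end Pool.Agent.Lib.MP_d57abb_nt.AP
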