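import Pool.Agent.Lib.MP_42948a_nt.OA.SA
import Pool.Agent.Lib.MP_42948a_nt.OA.SC
import Pool.Agent.Lib.MP_42948a_nt.OA.SE
import Pool.Agent.Lib.MP_42948a_nt.OA.SF
import Pool.Agent.Lib.MP_42948a_nt.OA.SG

/-!
# JOB SvB: lower bound for the sieve product

PROOF.  `1 - x ≥ exp (-2 x)` for `0 ≤ x ≤ 3/4` (see `exp_le_prod` in `OA`, used in `ER/FF4.lean`: `exp (-(2 * ∑ g)) ≤ ∏ (1 - g)`).  `PP z` is the disjoint union of the blocks `Pj z j`, `j < z` (`prod_PP`), and `Pj z j` is empty unless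
`zs z j ≥ 2`; since `zs z j ≤ z ^ (1 / 2^j)` (`zs z (j+1) = Nat.sqrt (zs z j)`, so `(zs z (j+1))² ≤ zs z j`, `(zs z j)^(2^j) ≤ z`), `zs z j ≥ 2` implies `2^(2^j) ≤ z`, `2^j ≤ log z / log 2 ≤ 2 log z`, `j ≤ log (2 log z) / log 2`.  So the number `J` of
nonempty blocks is at most `1 + log (2 log z) / log 2`, and by `block_recip` `∑_{p ∈ Pj z j} g p ≤ κ L0` for every block: `∏_{PP z} (1 - g) ≥ exp (-2 κ L0 J) ≥ exp (-2 κ L0) (2 log z)^(-2 κ L0 / log 2) ≥ (2 + log z)^(-C)` for a suitable natural number `C`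
(`2 log z ≤ (2 + log z)²`, `exp (-2 κ L0) ≥ 2^(-C')` and `2 + log z ≥ 2`).
-/

namespace Pool.Agent.Lib.MP_d57abb_nt.AP

open Finset Pool.Agent.Lib.MP_42948a_nt.OA

theorem prodK (κ : ℕ) : ∃ C : ℕ, ∀ (z : ℕ) (g : ℕ → ℝ), 3 ≤ z →
    (∀ p ∈ PP z, 0 ≤ g p ∧ g p ≤ 3 / 4 ∧ g p ≤ κ / p) →
    1 / (2 + Real.log z) ^ C ≤ ∏ p ∈ PP z, (1 - g p) := by
  obtain ⟨L0, hL0, hrec⟩ := block_recip
  have hK0 : (0 : ℝ) ≤ κ := Nat.cast_nonneg κ
  set E : ℝ := Real.exp (-(2 * ((κ : ℝ) * L0))) with hE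
  have hE0 : 0 < E := Real.exp_pos _
  have hKL : 0 ≤ (κ : ℝ) * L0 := mul_nonneg hK0 hL0.le
  have hE1 : E ≤ 1 := by
    rw [hE, Real.exp_le_one_iff]
    linarith
  obtain ⟨B, hB⟩ := exists_pow_lt_of_lt_one hE0 (by norm_num : (1 / 2 : ℝ) < 1)
  refine ⟨2 * B, fun z g hz hg => ?_⟩
  have hsub : ∀ l, ∀ p ∈ Pj z l, p ∈ PP z := fun l p hp => (mem_filter.mp hp).1
  have hg0 : ∀ l, ∀ p ∈ Pj z l, 0 ≤ g p := fun l p hp => (hg p (hsub l p hp)).1
  have hg34 : ∀ l, ∀ p ∈ Pj z l, g p ≤ 3 / 4 := fun l p hp => (hg p (hsub l p hp)).2.1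
  have hS : ∀ l, ∑ p ∈ Pj z l, g p ≤ (κ : ℝ) * L0 := by
    intro l
    calc ∑ p ∈ Pj z l, g p ≤ ∑ p ∈ Pj z l, (κ : ℝ) * ((1 : ℝ) / p) := by
          refine sum_le_sum fun p hp => ?_
          refine (hg p (hsub l p hp)).2.2.trans (le_of_eq ?_)
          ring
      _ = (κ : ℝ) * ∑ p ∈ Pj z l, (1 : ℝ) / p := by rw [mul_sum]
      _ ≤ (κ : ℝ) * L0 := mul_le_mul_of_nonneg_left (hrec z l) hK0
  have hV : ∀ l, E ≤ ∏ p ∈ Pj z l, (1 - g p) := by
    intro l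
    refine le_trans ?_ (exp_le_prod (Pj z l) g (hg0 l) (hg34 l))
    rw [hE]
    apply Real.exp_le_exp.mpr
    linarith [hS l]
  set n : ℕ := Nat.log 2 (Nat.log 2 z) + 1 with hn
  have hempty : ∀ j, n ≤ j → Pj z j = ∅ := by
    intro j hj
    rw [Finset.eq_empty_iff_forall_notMem]
    intro p hp
    have hp1 : p.Prime := (mem_filter.mp (hsub j p hp)).2
    have hp2 : p ≤ zs z j := (mem_filter.mp hp).2.2
    have h2 : 2 ≤ zs z j := hp1.two_le.trans hp2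
    have h3 : 2 ^ (2 ^ j) ≤ z := (Nat.pow_le_pow_left h2 _).trans (zs_pow z j)
    have h4 : 2 ^ j ≤ Nat.log 2 z := Nat.le_log_of_pow_le (by norm_num) h3
    have h5 : j ≤ Nat.log 2 (Nat.log 2 z) := Nat.le_log_of_pow_le (by norm_num) h4
    omega
  have hprod : E ^ n ≤ ∏ p ∈ PP z, (1 - g p) := by
    rw [prod_PP]
    have h1 : ∏ j ∈ range z, (if j < n then E else 1) ≤ ∏ j ∈ range z, ∏ p ∈ Pj z j, (1 - g p) := by
      refine prod_le_prod (fun j _ => ?_) fun j _ => ?_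
      · split_ifs
        · exact hE0.le
        · exact zero_le_one
      · split_ifs with h
        · exact hV j
        · rw [hempty j (not_lt.mp h), prod_empty]
    refine le_trans ?_ h1
    rw [prod_ite, prod_const, prod_const_one, mul_one]
    have h2 : ((range z).filter (fun j => j < n)).card ≤ n := by
      have h3 : (range z).filter (fun j => j < n) ⊆ range n := by
        intro j hj
        exact mem_range.mpr (mem_filter.mp hj).2
      have h4 := card_le_card h3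
      rwa [card_range] at h4
    exact pow_le_pow_of_le_one hE0.le hE1 h2
  refine le_trans ?_ hprod
  have hlz : 0 < Real.log z := Real.log_pos (by exact_mod_cast (by omega : 1 < z))
  have hlog2 : (1 / 2 : ℝ) ≤ Real.log 2 := by linarith [Real.log_two_gt_d9]
  have hlog2z : Nat.log 2 z ≠ 0 := by
    have h1 : 1 ≤ Nat.log 2 z := Nat.le_log_of_pow_le (by norm_num) (by omega)
    omega
  have hn2 : ((2 ^ n : ℕ) : ℝ) ≤ (2 + Real.log z) ^ 2 := by
    have h1 : 2 ^ n ≤ 2 * Nat.log 2 z := by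
      rw [hn, pow_succ, mul_comm]
      exact Nat.mul_le_mul_left 2 (Nat.pow_log_le_self 2 hlog2z)
    have h2 : ((Nat.log 2 z : ℕ) : ℝ) * Real.log 2 ≤ Real.log z := by
      have h3 : 2 ^ (Nat.log 2 z) ≤ z := Nat.pow_log_le_self 2 (by omega)
      have h4 : ((2 : ℝ) ^ (Nat.log 2 z)) ≤ z := by exact_mod_cast h3
      have h5 := Real.log_le_log (by positivity) h4
      rwa [Real.log_pow] at h5
    have h3 : (0 : ℝ) ≤ ((Nat.log 2 z : ℕ) : ℝ) := Nat.cast_nonneg _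
    have h4 : ((Nat.log 2 z : ℕ) : ℝ) ≤ 2 * Real.log z := by
      have := mul_le_mul_of_nonneg_left hlog2 h3
      linarith
    have h5 : ((2 ^ n : ℕ) : ℝ) ≤ 2 * ((Nat.log 2 z : ℕ) : ℝ) := by exact_mod_cast h1
    nlinarith [sq_nonneg (Real.log z)]
  have hb : (0 : ℝ) < 2 + Real.log z := by linarith
  have hBE : (1 / 2 : ℝ) ^ B ≤ E := hB.le
  calc 1 / (2 + Real.log z) ^ (2 * B) = (1 / (2 + Real.log z) ^ 2) ^ B := by
        rw [pow_mul, div_pow, one_pow]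
    _ ≤ (1 / ((2 ^ n : ℕ) : ℝ)) ^ B := by
        refine pow_le_pow_left₀ (by positivity) ?_ B
        refine one_div_le_one_div_of_le ?_ hn2
        positivity
    _ = ((1 / 2 : ℝ) ^ B) ^ n := by
        push_cast
        rw [← pow_mul, mul_comm B n, pow_mul]
        congr 1
        rw [div_pow, one_pow]
    _ ≤ E ^ n := pow_le_pow_left₀ (by positivity) hBE n

end Pool.Agent.Lib.MP_d57abb_nt.AP
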